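import Pool.Agent.W425.GN.FinF
import Pool.Agent.W425.PN.Idn
import Pool.Agent.W692.MM.GN2
import Pool.Agent.W790.MM.GN1

set_option autoImplicit false

/-! Project GN: generic nondegeneracy, over the field of the other coefficients. -/

namespace Pool.Agent.W425.GN

open MvPolynomial Pool.Agent.H628R4.TP Pool.Agent.W425.MM
open Pool.Agent.W425.PN (Idn idn_of)
open Pool.Agent.W426.SM (gord IsRay face)

variable {r N : ℕ}

lemma lift_poly {R K : Type} [CommRing R] [CommRing K] (ι : R →+* K) {σ : Type}
    (B : MvPolynomial σ K) (h : ∀ w ∈ B.support, ∃ y, ι y = coeff w B) :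
    ∃ B' : MvPolynomial σ R, MvPolynomial.map ι B' = B := by
  classical
  choose! y hy using h
  refine ⟨∑ w ∈ B.support, monomial w (y w), ?_⟩
  rw [map_sum]
  conv_rhs => rw [B.as_sum]
  refine Finset.sum_congr rfl fun w hw => ?_
  rw [map_monomial, hy w hw]

lemma nonD_of_idn {F : Type} [Field F] {k n : ℕ} (m : Fin k → Fin n → ℕ) (c : Fin k → F)
    (h : ∀ u : Fin n → ℕ, Idn m c (Finset.univ.filter fun j => ∑ i, u i * m j i = gord m u)) :
    NonD m c := by
  classical
  intro u z hz h0
  obtain ⟨M, B0, B, hid⟩ := h u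
  by_contra hcon
  push Not at hcon
  have h1 := congrArg (eval z) hid
  have e0 : eval z (∑ j ∈ (Finset.univ.filter fun j => ∑ i, u i * m j i = gord m u),
      C (c j) * ∏ i, X i ^ m j i) = 0 := by
    rw [map_sum, Finset.sum_filter]
    refine Eq.trans (Finset.sum_congr rfl fun j _ => ?_) h0
    by_cases hj : ∑ i, u i * m j i = gord m u
    · rw [if_pos hj, if_pos (show face m u j from hj)]
      simp
    · have hfj : ¬ face m u j := hj
      simp only [if_neg hj, if_neg hfj]
  have ei : ∀ i, eval z (∑ j ∈ (Finset.univ.filter fun j => ∑ i, u i * m j i = gord m u),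
      C (c j * (m j i : F)) * ∏ i', X i' ^ m j i') = 0 := by
    intro i
    rw [map_sum, Finset.sum_filter]
    refine Eq.trans (Finset.sum_congr rfl fun j _ => ?_) (hcon i)
    by_cases hj : ∑ i, u i * m j i = gord m u
    · rw [if_pos hj, if_pos (show face m u j from hj)]
      simp [mul_assoc]
    · have hfj : ¬ face m u j := hj
      simp only [if_neg hj, if_neg hfj]
  rw [map_add, map_mul, e0, mul_zero, zero_add, map_sum, Finset.sum_eq_zero, map_pow,
    map_prod] at h1
  · simp only [eval_X] at h1
    exact pow_ne_zero M (Finset.prod_ne_zero_iff.2 fun i _ => hz i) h1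
  · intro i _
    rw [map_mul, ei i, mul_zero]

/-- generic nondegeneracy -/
theorem gen_nonDF (hF4 : TaskF4) {F : Type} [Field F] [Algebra F ℂ] (hr : 0 < r)
    (v : Fin r → Fin N → ℕ) {q : ℕ} (w : Fin q → Fin N → ℕ)
    (hw : ∀ l, Pool.Agent.W425.SV.NP v (Finsupp.equivFunOnFinite.symm (w l))) (h : Fin q → F) :
    ∃ g : MvPolynomial (Fin r) F, g ≠ 0 ∧ ∀ a : Fin r → ℂ, aeval a g ≠ 0 →
      NonD (Fin.append v w) (Fin.append a (fun l => algebraMap F ℂ (h l))) := by
  classical
  have hcF : CharZero F := RingHom.charZero (algebraMap F ℂ)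
  obtain ⟨ι0⟩ := emb (F := F) r
  set A := MvPolynomial (Fin r) F with hA
  set K := FractionRing A with hK
  have hinjA : Function.Injective (algebraMap A K) := IsFractionRing.injective A K
  let algCF : Algebra (Cp F) ℂ := (ι0.comp (algebraMap F K)).toAlgebra
  have hchar : CharZero (Cp F) := hcF
  have hind : @AlgebraicIndependent (Fin r) (Cp F) ℂ (fun j => ι0 (algebraMap A K (X j)))
      _ _ algCF := by
    rw [algebraicIndependent_iff_injective_aeval]
    have h1 : ∀ p : MvPolynomial (Fin r) (Cp F),
        @aeval (Cp F) ℂ (Fin r) _ _ algCF (fun j => ι0 (algebraMap A K (X j))) p =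
          ι0 (algebraMap A K (show MvPolynomial (Fin r) F from p)) := by
      intro p
      induction p using MvPolynomial.induction_on with
      | C c =>
        rw [aeval_C]
        rfl
      | add p q hp hq =>
        rw [map_add, hp, hq, ← map_add, ← map_add]
        rfl
      | mul_X p j hp =>
        rw [map_mul, hp, aeval_X, ← map_mul, ← map_mul]
        rfl
    intro p q hpq
    rw [h1, h1] at hpq
    exact hinjA (ι0.injective hpq)
  have hnd0 := @Pool.Agent.W692.MM.gn2 Pool.Agent.W790.MM.taskGN1 (Cp F) ℂ _ hchar _ algCF r q N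
    v w (fun j => ι0 (algebraMap A K (X j))) (fun l => (show Cp F from h l)) hr hind hw
  let algK : Algebra K ℂ := ι0.toAlgebra
  let cK : Fin (r + q) → K := Fin.append (fun j => algebraMap A K (X j))
    (fun l => algebraMap A K (C (h l)))
  have hcK : (fun j => algebraMap K ℂ (cK j)) =
      Fin.append (fun j => ι0 (algebraMap A K (X j)))
        (fun l => @algebraMap (Cp F) ℂ _ _ algCF (show Cp F from h l)) := by
    funext j
    refine Fin.addCases (fun j => ?_) (fun l => ?_) j
    · show ι0 (Fin.append _ _ _) = _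
      rw [Fin.append_left, Fin.append_left]
    · show ι0 (Fin.append _ _ _) = _
      rw [Fin.append_right, Fin.append_right]
      rfl
  have hidn : ∀ u : Fin N → ℕ, Idn (Fin.append v w) cK
      (Finset.univ.filter fun j => ∑ i, u i * Fin.append v w j i = gord (Fin.append v w) u) :=
    fun u => idn_of (Fin.append v w) cK (by rw [hcK]; exact hnd0) u
  -- the finitely many faces
  let Fc : Finset (Fin (r + q)) → Prop := fun τ => ∃ u : Fin N → ℕ,
    τ = Finset.univ.filter fun j => ∑ i, u i * Fin.append v w j i = gord (Fin.append v w) u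
  have hid' : ∀ τ : Finset (Fin (r + q)), ∃ (M : ℕ) (B0 : MvPolynomial (Fin N) K)
      (B : Fin N → MvPolynomial (Fin N) K), Fc τ →
      (∏ i, X i : MvPolynomial (Fin N) K) ^ M =
      B0 * (∑ j ∈ τ, C (cK j) * ∏ i, X i ^ Fin.append v w j i) +
        ∑ i, B i * ∑ j ∈ τ, C (cK j * (Fin.append v w j i : K)) *
          ∏ i', X i' ^ Fin.append v w j i' := by
    intro τ
    by_cases h : Fc τ
    · obtain ⟨u, hu⟩ := h
      obtain ⟨M, B0, B, hB⟩ := hidn u
      exact ⟨M, B0, B, fun _ => by rw [hu]; exact hB⟩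
    · exact ⟨0, 0, fun _ => 0, fun h' => absurd h' h⟩
  choose M B0 B hB using hid'
  obtain ⟨g, hg, hgr⟩ := hF4 (Finset.univ.biUnion fun τ : Finset (Fin (r + q)) =>
    ((B0 τ).support.image fun w => coeff w (B0 τ)) ∪
      Finset.univ.biUnion fun i => (B τ i).support.image fun w => coeff w (B τ i))
  refine ⟨g, hg, fun a ha => nonD_of_idn _ _ fun u => ?_⟩
  obtain ⟨R, _, ι, j, e, hι, hZR, hιj, hej, -⟩ := hgr a ha
  set τ := Finset.univ.filter fun j => ∑ i, u i * Fin.append v w j i = gord (Fin.append v w) u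
    with hτ
  obtain ⟨B0', hB0'⟩ := lift_poly ι (B0 τ) fun w' hw' => hZR _ (Finset.mem_biUnion.2
    ⟨τ, Finset.mem_univ _, Finset.mem_union_left _ (Finset.mem_image_of_mem _ hw')⟩)
  choose B' hB' using fun i => lift_poly ι (B τ i) fun w' hw' => hZR _ (Finset.mem_biUnion.2
    ⟨τ, Finset.mem_univ _, Finset.mem_union_right _ (Finset.mem_biUnion.2
      ⟨i, Finset.mem_univ _, Finset.mem_image_of_mem _ hw'⟩)⟩)
  let cR : Fin (r + q) → R := Fin.append (fun l => j (X l)) (fun l => j (C (h l)))
  have hcR : ∀ l, ι (cR l) = cK l := by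
    intro l
    refine Fin.addCases (fun l => ?_) (fun l => ?_) l
    · show ι (Fin.append _ _ _) = Fin.append _ _ _
      rw [Fin.append_left, Fin.append_left, hιj]
    · show ι (Fin.append _ _ _) = Fin.append _ _ _
      rw [Fin.append_right, Fin.append_right, hιj]
  have hceR : ∀ l, e (cR l) = Fin.append a (fun l => algebraMap F ℂ (h l)) l := by
    intro l
    refine Fin.addCases (fun l => ?_) (fun l => ?_) l
    · show e (Fin.append _ _ _) = _
      rw [Fin.append_left, Fin.append_left, hej, aeval_X]
    · show e (Fin.append _ _ _) = _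
      rw [Fin.append_right, Fin.append_right, hej]
      exact algHom_C _ _
  have hidR : (∏ i, X i : MvPolynomial (Fin N) R) ^ M τ =
      B0' * (∑ j ∈ τ, C (cR j) * ∏ i, X i ^ Fin.append v w j i) +
        ∑ i, B' i * ∑ j ∈ τ, C (cR j * (Fin.append v w j i : R)) *
          ∏ i', X i' ^ Fin.append v w j i' := by
    refine MvPolynomial.map_injective ι hι ?_
    have h1 := hB τ ⟨u, hτ⟩
    simp only [map_add, map_mul, map_sum, map_prod, map_pow, map_X, map_C, hcR, hB0', hB',
      map_natCast] at h1 ⊢
    exact h1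
  refine ⟨M τ, MvPolynomial.map e B0', fun i => MvPolynomial.map e (B' i), ?_⟩
  have h2 := congrArg (MvPolynomial.map e) hidR
  simp only [map_add, map_mul, map_sum, map_prod, map_pow, map_X, map_C, hceR,
    map_natCast] at h2 ⊢
  exact h2

end Pool.Agent.W425.GN
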