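import Pool.Agent.W425.GN.FinF
import Pool.Agent.W930.GN.C3
import Pool.Agent.W584.GN.A6

set_option autoImplicit false

/-! Project GN: the universal statement: all the roots which the Bernstein-Sato polynomials have for
very general coefficients are roots for generic coefficients. -/

namespace Pool.Agent.W425.GN

open MvPolynomial Pool.Agent.H628R4.TP
open Pool.Agent.W425.ND (spa)

variable {r N : ℕ}

theorem bernstein : Bernstein := Pool.Agent.W930.GN.c3 Pool.Agent.W33.GN.t_C1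
  Pool.Agent.W479.GN.c2 pA1 pA2 pA3 pA4

theorem pA6 : TaskA6 := Pool.Agent.W584.GN.a6

theorem FEq.toL {n : ℕ} {f : MvPolynomial (Fin n) ℂ} {b : Polynomial ℂ} (h : FEq f b) :
    FEqL f b := by
  obtain ⟨P, hP⟩ := h
  exact ⟨1, P, map_one _, fun s => by rw [one_mul]; exact hP s⟩

lemma exists_gF {F : Type} [Field F] [Algebra F ℂ] {ι : Type*} (s : Finset ι)
    (P : ι → (Fin r → ℂ) → Prop)
    (h : ∀ i ∈ s, ∃ g : MvPolynomial (Fin r) F, g ≠ 0 ∧ ∀ a, aeval a g ≠ 0 → P i a) :
    ∃ g : MvPolynomial (Fin r) F, g ≠ 0 ∧ ∀ a, aeval a g ≠ 0 → ∀ i ∈ s, P i a := by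
  classical
  choose! g hg hP using h
  refine ⟨∏ i ∈ s, g i, Finset.prod_ne_zero_iff.2 hg, fun a ha i hi => hP i hi a ?_⟩
  rw [map_prod, Finset.prod_ne_zero_iff] at ha
  exact ha i hi

/-- There is a polynomial with very general coefficients. -/
lemma exists_vgen {F : Type} [Field F] [Algebra F ℂ] (hr : 0 < r) (v : Fin r → Fin N → ℕ)
    (hv : Function.Injective v) (h : MvPolynomial (Fin N) F) :
    ∃ (algCF : Algebra (Cp F) ℂ) (a : Fin r → ℂ),
      @AlgebraicIndependent (Fin r) (Cp F) ℂ a _ _ algCF ∧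
      spa v a + MvPolynomial.map (@algebraMap (Cp F) ℂ _ _ algCF)
        (show MvPolynomial (Fin N) (Cp F) from h) ≠ 0 := by
  classical
  obtain ⟨ι0⟩ := emb (F := F) r
  have hinjA : Function.Injective (algebraMap (MvPolynomial (Fin r) F)
    (FractionRing (MvPolynomial (Fin r) F))) := IsFractionRing.injective _ _
  let algCF : Algebra (Cp F) ℂ := (ι0.comp (algebraMap F
    (FractionRing (MvPolynomial (Fin r) F)))).toAlgebra
  have hind : @AlgebraicIndependent (Fin r) (Cp F) ℂ (fun j => ι0 (algebraMap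
      (MvPolynomial (Fin r) F) (FractionRing (MvPolynomial (Fin r) F)) (X j))) _ _ algCF := by
    rw [algebraicIndependent_iff_injective_aeval]
    have h1 : ∀ p : MvPolynomial (Fin r) (Cp F),
        @aeval (Cp F) ℂ (Fin r) _ _ algCF (fun j => ι0 (algebraMap
          (MvPolynomial (Fin r) F) (FractionRing (MvPolynomial (Fin r) F)) (X j))) p =
          ι0 (algebraMap (MvPolynomial (Fin r) F) (FractionRing (MvPolynomial (Fin r) F))
            (show MvPolynomial (Fin r) F from p)) := by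
      intro p
      induction p using MvPolynomial.induction_on with
      | C c =>
        rw [aeval_C]
        rfl
      | add p q hp hq =>
        rw [map_add, hp, hq, ← map_add, ← map_add]
        rfl
      | mul_X p j hp =>
        rw [map_mul, hp, aeval_X, ← map_mul, ← map_mul]
        rfl
    intro p q hpq
    rw [h1, h1] at hpq
    exact hinjA (ι0.injective hpq)
  refine ⟨algCF, _, hind, fun h1 => ?_⟩
  have h2 := congrArg (coeff (Finsupp.equivFunOnFinite.symm (v ⟨0, hr⟩))) h1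
  rw [coeff_add, coef_spa v hv, coeff_zero, coeff_map] at h2
  -- `X 0 + coeff` is not zero
  have h3 : ι0 (algebraMap (MvPolynomial (Fin r) F) (FractionRing (MvPolynomial (Fin r) F))
      (X ⟨0, hr⟩ + C (coeff (Finsupp.equivFunOnFinite.symm (v ⟨0, hr⟩)) h))) = 0 := by
    rw [map_add, map_add]
    exact h2
  rw [map_eq_zero_iff _ ι0.injective, map_eq_zero_iff _ hinjA] at h3
  have h4 := congrArg (coeff (Finsupp.single (⟨0, hr⟩ : Fin r) 1)) h3
  rw [coeff_add, coeff_X, if_pos rfl, coeff_C, if_neg, coeff_zero, add_zero] at h4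
  · exact one_ne_zero h4
  · intro h5
    have := congrArg (fun f => f ⟨0, hr⟩) h5
    simp at this

/-- Every `b`-function is divisible by `(s - α) ^ (m + 1)` for very general coefficients. -/
def HP {F : Type} [Field F] (v : Fin r → Fin N → ℕ) (h : MvPolynomial (Fin N) F) (α : ℚ)
    (m : ℕ) : Prop :=
  ∀ (F' : Type) [Field F'] [Algebra F' ℂ] (a : Fin r → ℂ) (h' : MvPolynomial (Fin N) F'),
      AlgebraicIndependent F' a → (∀ w ∈ h'.support, w ∈ h.support) → ∀ b : Polynomial ℂ,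
      FEq (spa v a + MvPolynomial.map (algebraMap F' ℂ) h') b →
        (Polynomial.X - Polynomial.C (α : ℂ)) ^ (m + 1) ∣ b

/-- **The universal statement.** -/
theorem univ (hF4 : TaskF4) (hR1 : TaskR1) {F : Type} [Field F] [Algebra F ℂ]
    (hr : 0 < r) (v : Fin r → Fin N → ℕ)
    (hv : Function.Injective v) (h : MvPolynomial (Fin N) F) :
    ∃ g : MvPolynomial (Fin r) F, g ≠ 0 ∧ ∀ a : Fin r → ℂ, aeval a g ≠ 0 → ∀ b : Polynomial ℂ,
      FEq (spa v a + MvPolynomial.map (algebraMap F ℂ) h) b → ∀ (α : ℚ) (m : ℕ), HP v h α m →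
        (Polynomial.X - Polynomial.C (α : ℂ)) ^ (m + 1) ∣ b := by
  classical
  obtain ⟨algCF, a0, ha0, hne⟩ := exists_vgen hr v hv h
  obtain ⟨b0, hb0, hb0F⟩ := bernstein _ hne
  -- the finitely many pairs
  have hfin : {α : ℚ | b0.IsRoot (α : ℂ)}.Finite := by
    have h1 : {z : ℂ | b0.IsRoot z}.Finite := Polynomial.finite_setOf_isRoot hb0
    exact h1.preimage (fun x _ y _ hxy => Rat.cast_injective hxy)
  have hpair : ∀ (α : ℚ) (m : ℕ), HP v h α m →
      (α, m) ∈ hfin.toFinset ×ˢ Finset.range (b0.natDegree + 1) := by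
    intro α m hH
    have h1 := @hH (Cp F) _ algCF a0 (show MvPolynomial (Fin N) (Cp F) from h) ha0
      (fun w hw => hw) b0 hb0F
    refine Finset.mem_product.2 ⟨?_, ?_⟩
    · rw [Set.Finite.mem_toFinset]
      exact Polynomial.dvd_iff_isRoot.1 ((dvd_pow_self _ (Nat.succ_ne_zero m)).trans h1)
    · have h2 := Polynomial.natDegree_le_of_dvd h1 hb0
      rw [Polynomial.natDegree_pow, Polynomial.natDegree_X_sub_C, mul_one] at h2
      exact Finset.mem_range.2 (by omega)
  obtain ⟨g, hg, hgP⟩ := exists_gF (F := F) (r := r)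
    (hfin.toFinset ×ˢ Finset.range (b0.natDegree + 1)) (fun q a => HP v h q.1 q.2 →
      ∀ b : Polynomial ℂ, FEq (spa v a + MvPolynomial.map (algebraMap F ℂ) h) b →
        (Polynomial.X - Polynomial.C (q.1 : ℂ)) ^ (q.2 + 1) ∣ b) (fun q _ => by
      by_cases hq : HP v h q.1 q.2
      · obtain ⟨g, hg, hgb⟩ := coreF bernstein hF4 hR1 hr v hv h q.1 q.2 hq
        exact ⟨g, hg, fun a ha _ b hb => hgb a ha b hb⟩
      · exact ⟨1, one_ne_zero, fun a _ hq' => absurd hq' hq⟩)
  exact ⟨g, hg, fun a ha b hb α m hH => hgP a ha (α, m) (hpair α m hH) hH b hb⟩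

/-- Every `b`-function is divisible by `(s - α) ^ (m + 1)` for very general coefficients. -/
def HPL {F : Type} [Field F] (v : Fin r → Fin N → ℕ) (h : MvPolynomial (Fin N) F) (α : ℚ)
    (m : ℕ) : Prop :=
  ∀ (F' : Type) [Field F'] [Algebra F' ℂ] (a : Fin r → ℂ) (h' : MvPolynomial (Fin N) F'),
      AlgebraicIndependent F' a → (∀ w ∈ h'.support, w ∈ h.support) → ∀ b : Polynomial ℂ,
      FEqL (spa v a + MvPolynomial.map (algebraMap F' ℂ) h') b →
        (Polynomial.X - Polynomial.C (α : ℂ)) ^ (m + 1) ∣ b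

/-- **The universal statement.** -/
theorem univL (hF4 : TaskF4) (hR1 : TaskR1) (hG2 : TaskG2) {F : Type} [Field F] [Algebra F ℂ]
    (hr : 0 < r) (v : Fin r → Fin N → ℕ)
    (hv : Function.Injective v) (h : MvPolynomial (Fin N) F) :
    ∃ g : MvPolynomial (Fin r) F, g ≠ 0 ∧ ∀ a : Fin r → ℂ, aeval a g ≠ 0 → ∀ b : Polynomial ℂ,
      FEqL (spa v a + MvPolynomial.map (algebraMap F ℂ) h) b → ∀ (α : ℚ) (m : ℕ), HPL v h α m →
        (Polynomial.X - Polynomial.C (α : ℂ)) ^ (m + 1) ∣ b := by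
  classical
  obtain ⟨algCF, a0, ha0, hne⟩ := exists_vgen hr v hv h
  obtain ⟨b0, hb0, hb0F⟩ := bernstein _ hne
  -- the finitely many pairs
  have hfin : {α : ℚ | b0.IsRoot (α : ℂ)}.Finite := by
    have h1 : {z : ℂ | b0.IsRoot z}.Finite := Polynomial.finite_setOf_isRoot hb0
    exact h1.preimage (fun x _ y _ hxy => Rat.cast_injective hxy)
  have hpair : ∀ (α : ℚ) (m : ℕ), HPL v h α m →
      (α, m) ∈ hfin.toFinset ×ˢ Finset.range (b0.natDegree + 1) := by
    intro α m hH
    have h1 := @hH (Cp F) _ algCF a0 (show MvPolynomial (Fin N) (Cp F) from h) ha0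
      (fun w hw => hw) b0 hb0F.toL
    refine Finset.mem_product.2 ⟨?_, ?_⟩
    · rw [Set.Finite.mem_toFinset]
      exact Polynomial.dvd_iff_isRoot.1 ((dvd_pow_self _ (Nat.succ_ne_zero m)).trans h1)
    · have h2 := Polynomial.natDegree_le_of_dvd h1 hb0
      rw [Polynomial.natDegree_pow, Polynomial.natDegree_X_sub_C, mul_one] at h2
      exact Finset.mem_range.2 (by omega)
  obtain ⟨g, hg, hgP⟩ := exists_gF (F := F) (r := r)
    (hfin.toFinset ×ˢ Finset.range (b0.natDegree + 1)) (fun q a => HPL v h q.1 q.2 →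
      ∀ b : Polynomial ℂ, FEqL (spa v a + MvPolynomial.map (algebraMap F ℂ) h) b →
        (Polynomial.X - Polynomial.C (q.1 : ℂ)) ^ (q.2 + 1) ∣ b) (fun q _ => by
      by_cases hq : HPL v h q.1 q.2
      · obtain ⟨g, hg, hgb⟩ := coreFL bernstein pA6 hF4 hR1 hG2 hr v hv h q.1 q.2 hq
        exact ⟨g, hg, fun a ha _ b hb => hgb a ha b hb⟩
      · exact ⟨1, one_ne_zero, fun a _ hq' => absurd hq' hq⟩)
  exact ⟨g, hg, fun a ha b hb α m hH => hgP a ha (α, m) (hpair α m hH) hH b hb⟩

end Pool.Agent.W425.GN
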