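import Pool.Agent.W425.GN.Gen
import Pool.Agent.W425.GN.NdF
import Pool.Agent.W425.GN.Univ
import Pool.Agent.W320.GN.G2
import Pool.Agent.W565.GN.F4
import Pool.Agent.W816.GN.R1

set_option autoImplicit false

/-! Project GN: generic coefficients, all candidate poles; the exceptional set is defined over the
field of the other coefficients. -/

namespace Pool.Agent.W425.GN

open MvPolynomial Pool.Agent.H628R4.TP Pool.Agent.W425.MM
open Pool.Agent.W425.ND (spa)
open Pool.Agent.W426.SM (gord IsRay face)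

variable {r N : ℕ}

theorem pF4 : TaskF4 := Pool.Agent.W565.GN.taskF4
theorem pR1 : TaskR1 := Pool.Agent.W816.GN.R1.taskR1
theorem pG2 : TaskG2 := Pool.Agent.W320.GN.G2.main

theorem hp_root [NeZero r] {F : Type} [Field F] (v : Fin r → Fin N → ℕ)
    (hv : Function.Injective v) (hv0 : ∀ j, v j ≠ 0) (h : MvPolynomial (Fin N) F)
    (hh : ∀ w ∈ h.support, Pool.Agent.W425.SV.NP v w) : HP v h (-1) 0 := by
  intro F' _ _ a h' ha hs b hb
  have hb' := (Pool.Agent.W591.GC.J_bot _ b).2 ((bfun_iff _ _).2 hb)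
  have hbot : ∀ g ∈ (⊥ : Submonoid (MvPolynomial (Fin N) ℂ)),
      MvPolynomial.constantCoeff g = 1 ∧ (¬ False → g = 1) := fun g hg => by
    rw [Submonoid.mem_bot] at hg
    exact ⟨by rw [hg, map_one], fun _ => hg⟩
  have hh' : ∀ w ∈ h'.support, Pool.Agent.W425.SV.NP v w := fun w hw => hh w (hs w hw)
  rw [zero_add, pow_one, Polynomial.dvd_iff_isRoot]
  have h2 := (root_strong False ⊥ hbot v a hv hv0 ha h' hh' b hb').1
  show b.eval _ = 0
  push_cast
  exact h2

theorem hp_cand [NeZero r] {F : Type} [Field F] (v : Fin r → Fin N → ℕ)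
    (hv : Function.Injective v) (hv0 : ∀ j, v j ≠ 0) (h : MvPolynomial (Fin N) F)
    (hh : ∀ w ∈ h.support, Pool.Agent.W425.SV.NP v w) (hB : NoB1s v False)
    (u : Fin N → ℕ) (hu : IsRay v u) (hgu : 0 < gord v u) :
    HP v h (-(((∑ i, u i : ℕ) : ℚ) / gord v u)) 0 := by
  intro F' _ _ a h' ha hs b hb
  have hb' := (Pool.Agent.W591.GC.J_bot _ b).2 ((bfun_iff _ _).2 hb)
  have hbot : ∀ g ∈ (⊥ : Submonoid (MvPolynomial (Fin N) ℂ)),
      MvPolynomial.constantCoeff g = 1 ∧ (¬ False → g = 1) := fun g hg => by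
    rw [Submonoid.mem_bot] at hg
    exact ⟨by rw [hg, map_one], fun _ => hg⟩
  have hh' : ∀ w ∈ h'.support, Pool.Agent.W425.SV.NP v w := fun w hw => hh w (hs w hw)
  rw [zero_add, pow_one, Polynomial.dvd_iff_isRoot]
  have h2 := cand_strong False ⊥ hbot v a hv hv0 ha h' hh' b hb' hB u hu hgu
  show b.eval _ = 0
  rw [← h2]
  congr 1
  push_cast
  ring

/-- **All candidate poles are roots, for generic coefficients.** -/
theorem gen_rootsF {F : Type} [Field F] [Algebra F ℂ] (hr : 0 < r) (v : Fin r → Fin N → ℕ)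
    (hv : Function.Injective v) (hv0 : ∀ j, v j ≠ 0) (h : MvPolynomial (Fin N) F)
    (hh : ∀ w ∈ h.support, Pool.Agent.W425.SV.NP v w) (hB : NoB1s v False) :
    ∃ g : MvPolynomial (Fin r) F, g ≠ 0 ∧ ∀ c : Fin r → ℂ, aeval c g ≠ 0 →
      ∀ b : Polynomial ℂ, IsBFunction (spa v c + MvPolynomial.map (algebraMap F ℂ) h) b →
        b.eval (-1) = 0 ∧
        ∀ a : Fin N → ℕ, IsRay v a → 0 < gord v a →
          b.eval (-(((∑ i, a i : ℕ) : ℂ) / gord v a)) = 0 := by
  have hne : NeZero r := ⟨by omega⟩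
  obtain ⟨g, hg, hgb⟩ := univ pF4 pR1 hr v hv h
  refine ⟨g, hg, fun c hc b hb => ⟨?_, fun a ha hga => ?_⟩⟩
  · have h2 := hgb c hc b ((bfun_iff _ _).1 hb) (-1) 0 (hp_root v hv hv0 h hh)
    rw [zero_add, pow_one, Polynomial.dvd_iff_isRoot] at h2
    have h3 : b.eval _ = 0 := h2
    push_cast at h3
    exact h3
  · have h2 := hgb c hc b ((bfun_iff _ _).1 hb) _ 0 (hp_cand v hv hv0 h hh hB a ha hga)
    rw [zero_add, pow_one, Polynomial.dvd_iff_isRoot] at h2
    have h3 : b.eval _ = 0 := h2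
    rw [← h3]
    congr 1
    push_cast
    ring

open Pool.Agent.W428.MOT (Pt Constr ratRing sp LuMu InRat zetaE)
open Pool.Agent.W375.MG (zetaG Good)

/-- **The strong form for generic coefficients.** -/
theorem gen_motF {F : Type} [Field F] [Algebra F ℂ] (hr : 0 < r)
    (v : Fin r → Fin N → ℕ) (hv : Function.Injective v) (hv0 : ∀ j, v j ≠ 0)
    (h : MvPolynomial (Fin N) F) (hh : ∀ w ∈ h.support, Pool.Agent.W425.SV.NP v w)
    (hB : NoB1s v False) :
    ∃ g : MvPolynomial (Fin r) F, g ≠ 0 ∧ ∀ (k : Type) [Field k] [Algebra F k] [Algebra k ℂ]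
      [IsScalarTower F k ℂ] (c : Fin r → k), aeval (fun j => algebraMap k ℂ (c j)) g ≠ 0 →
      ∃ S : Finset (ℤ × ℤ),
        (∀ p ∈ S, p.1 < 0 ∧ 0 < p.2 ∧ ∀ b : Polynomial ℂ, IsBFunction
          (spa v (fun j => algebraMap k ℂ (c j)) + MvPolynomial.map (algebraMap F ℂ) h) b →
            b.eval ((p.1 : ℂ) / p.2) = 0) ∧
        (∀ (K : Type) [Field K] [Algebra k K] (W : Set (Pt K (Fin N)))
          (E : Set (AlgebraicClosure K)), Constr W → Good E →
          zetaG (spa v (fun j => algebraMap k K (c j)) +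
            MvPolynomial.map ((algebraMap k K).comp (algebraMap F k)) h) W E ∈ ratRing K S) ∧
        InRat (LuMu (spa v c + MvPolynomial.map (algebraMap F k) h)) S
          (zetaE (spa v c + MvPolynomial.map (algebraMap F k) h)) := by
  obtain ⟨g1, hg1, h1⟩ := gen_rootsF hr v hv hv0 h hh hB
  obtain ⟨g2, hg2, h2⟩ := gen_nonDF pF4 hr v (we h) (we_np v h hh) (wc h)
  refine ⟨g1 * g2, mul_ne_zero hg1 hg2, fun k _ _ _ _ c hc => ?_⟩
  rw [map_mul] at hc
  have hb := h1 _ (left_ne_zero_of_mul hc)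
  have hnd := h2 _ (right_ne_zero_of_mul hc)
  have hnk : NonD (Fin.append v (we h)) (fun j => algebraMap k ℂ
      (Fin.append c (fun l => algebraMap F k (wc h l)) j)) := by
    rw [append_map]
    simp only [← IsScalarTower.algebraMap_apply F k ℂ]
    exact hnd
  have hray := pRAY v (we h) hr (we_np v h hh)
  have hkc : CharZero k := RingHom.charZero (algebraMap k ℂ)
  have hcand : ∀ a : Fin N → ℕ, IsRay (Fin.append v (we h)) a →
      0 < gord (Fin.append v (we h)) a → ∀ b : Polynomial ℂ, IsBFunction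
          (spa v (fun j => algebraMap k ℂ (c j)) + MvPolynomial.map (algebraMap F ℂ) h) b →
      b.eval (((-((∑ i, a i : ℕ) : ℤ) : ℤ) : ℂ) /
        ((gord (Fin.append v (we h)) a : ℤ) : ℂ)) = 0 := by
    intro a ha hg b hb'
    obtain ⟨hga, hra⟩ := hray a
    rw [hga] at hg ⊢
    have h3 := (hb b hb').2 a (hra ha) hg
    rw [← h3]
    congr 1
    push_cast
    ring
  have hm1 : ∀ b : Polynomial ℂ, IsBFunction
          (spa v (fun j => algebraMap k ℂ (c j)) + MvPolynomial.map (algebraMap F ℂ) h) b →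
      b.eval (((-1 : ℤ) : ℂ) / ((1 : ℤ) : ℂ)) = 0 := by
    intro b hb'
    have e : (((-1 : ℤ) : ℂ) / ((1 : ℤ) : ℂ)) = -1 := by
      push_cast
      ring
    rw [e]
    exact (hb b hb').1
  have hpos : ∀ a : Fin N → ℕ, a ≠ 0 → -((∑ i, a i : ℕ) : ℤ) < 0 := by
    intro a ha
    have h4 : 0 < ∑ i, a i := by
      by_contra hcon
      exact ha (funext fun i =>
        Finset.sum_eq_zero_iff.1 (Nat.eq_zero_of_not_pos hcon) i (Finset.mem_univ i))
    simp only [Left.neg_neg_iff]
    exact_mod_cast h4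
  obtain ⟨S1, hS1, hz1⟩ := Mot.fin (Fin.append v (we h)) (show 0 < r + h.support.card by omega)
  obtain ⟨S2, hS2, hz2⟩ := efin (Fin.append v (we h)) (show 0 < r + h.support.card by omega)
  refine ⟨S1 ∪ S2, fun p hp => ?_, fun K _ _ W E hW hE => ?_, ?_⟩
  · have hp' : p = (-1, 1) ∨ ∃ a : Fin N → ℕ, IsRay (Fin.append v (we h)) a ∧
        0 < gord (Fin.append v (we h)) a ∧
        p = (-((∑ i, a i : ℕ) : ℤ), (gord (Fin.append v (we h)) a : ℤ)) :=
      (Finset.mem_union.1 hp).elim (hS1 p) (hS2 p)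
    rcases hp' with rfl | ⟨a, ha, hg, rfl⟩
    · exact ⟨by norm_num, by norm_num, fun b hb' => hm1 b hb'⟩
    · exact ⟨hpos a ha.1, Int.natCast_pos.2 hg, fun b hb' => hcand a ha hg b hb'⟩
  · have hK : CharZero K := charZero_of_injective_algebraMap (algebraMap k K).injective
    rw [sp_eq]
    have h3 := hz1 K (Fin.append (fun j => algebraMap k K (c j))
      (fun l => (algebraMap k K).comp (algebraMap F k) (wc h l))) (nonG_of_nonD _ _ (by
        have h4 := nonD_ext (k := k) (L := AlgebraicClosure K) _ _ hnk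
        have h5 : (fun j => algebraMap K (AlgebraicClosure K)
            (Fin.append (fun j => algebraMap k K (c j))
              (fun l => (algebraMap k K).comp (algebraMap F k) (wc h l)) j)) =
            fun j => algebraMap k (AlgebraicClosure K)
              (Fin.append c (fun l => algebraMap F k (wc h l)) j) := by
          rw [append_map, append_map]
          congr 1
        rw [h5]
        exact h4)) W E hW hE
    refine Algebra.adjoin_mono (Set.union_subset_union_right _ ?_) h3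
    rintro g ⟨p, hp, rfl⟩
    exact ⟨p, Finset.mem_coe.2 (Finset.mem_union_left _ (Finset.mem_coe.1 hp)), rfl⟩
  · rw [sp_eq]
    have h3 := hz2 k (Fin.append c (fun l => algebraMap F k (wc h l))) (nonG_of_nonD _ _
      (nonD_ext (k := k) (L := AlgebraicClosure k) _ _ hnk))
    unfold InRat at h3 ⊢
    refine Algebra.adjoin_mono (Set.union_subset_union_right _ ?_) h3
    rintro g ⟨p, hp, rfl⟩
    exact ⟨p, Finset.mem_coe.2 (Finset.mem_union_right _ (Finset.mem_coe.1 hp)), rfl⟩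

open MeasureTheory in
/-- **The p-adic strong form for generic coefficients.** -/
theorem gen_padicF (hr : 0 < r)
    (v : Fin r → Fin N → ℕ) (hv : Function.Injective v) (hv0 : ∀ j, v j ≠ 0)
    (h : MvPolynomial (Fin N) ℚ) (hh : ∀ w ∈ h.support, Pool.Agent.W425.SV.NP v w)
    (hB : NoB1s v False) :
    ∃ g : MvPolynomial (Fin r) ℚ, g ≠ 0 ∧ ∀ c : Fin r → ℚ, eval c g ≠ 0 →
      ∃ S : Finset ℕ, ∀ (p : ℕ) [Fact p.Prime], p ∉ S →
      ∀ [MeasurableSpace (Fin N → PadicInt p)] [BorelSpace (Fin N → PadicInt p)],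
      ∀ F : ℂ → ℂ, MeromorphicOn F Set.univ →
        (∀ s : ℂ, 0 < s.re →
          F s = ∫ x, ((‖MvPolynomial.eval₂ (algebraMap ℚ (Padic p))
                    (fun i => ((x i : PadicInt p) : Padic p)) (spa v c + h)‖ : ℝ) : ℂ) ^ s
                  ∂(MeasureTheory.Measure.addHaar : MeasureTheory.Measure (Fin N → PadicInt p))) →
        ∀ s₀ : ℂ, meromorphicOrderAt F s₀ < 0 → ∀ b : Polynomial ℂ,
          IsBFunction (MvPolynomial.map (algebraMap ℚ ℂ) (spa v c + h)) b →
          b.eval (s₀.re : ℂ) = 0 := by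
  obtain ⟨g1, hg1, h1⟩ := gen_rootsF hr v hv hv0 h hh hB
  obtain ⟨g2, hg2, h2⟩ := gen_nonDF pF4 hr v (we h) (we_np v h hh) (wc h)
  refine ⟨g1 * g2, mul_ne_zero hg1 hg2, fun c hc' => ?_⟩
  have hc : aeval (fun j => ((c j : ℚ) : ℂ)) (g1 * g2) ≠ 0 := by
    have h0 : aeval (fun j => ((c j : ℚ) : ℂ)) (g1 * g2) = ((eval c (g1 * g2) : ℚ) : ℂ) := by
      have h5 := aeval_algebraMap_apply ℂ c (g1 * g2)
      exact h5
    rw [h0]
    exact_mod_cast hc'
  rw [map_mul] at hc
  have hb := h1 _ (left_ne_zero_of_mul hc)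
  have hnd := h2 _ (right_ne_zero_of_mul hc)
  have hray := pRAY v (we h) hr (we_np v h hh)
  have hq : Pool.Agent.W425.PN.qpoly (Fin.append v (we h)) (Fin.append c (wc h)) =
      spa v c + h := by
    unfold Pool.Agent.W425.PN.qpoly
    rw [Fin.sum_univ_add]
    simp only [Fin.append_left, Fin.append_right]
    congr 1
    have h3 := h_eq (RingHom.id ℚ) h
    rw [MvPolynomial.map_id] at h3
    exact h3.symm
  have hnq : NonD (Fin.append v (we h)) (fun j => ((Fin.append c (wc h) j : ℚ) : ℂ)) := by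
    have h3 := append_map (fun q : ℚ => (q : ℂ)) c (wc h)
    rw [h3]
    exact hnd
  obtain ⟨S, hS⟩ := Pool.Agent.W425.PN.poles (Fin.append v (we h)) (Fin.append c (wc h))
    (by omega) hnq
  rw [hq] at hS
  refine ⟨S, fun p _ hp _ _ F hF hFI s₀ hs₀ b hbf => ?_⟩
  rw [map_add, map_spa] at hbf
  obtain ⟨h3, h4⟩ := hb b hbf
  rcases hS p hp F hF hFI s₀ hs₀ with h | ⟨a, ha, hg, h⟩
  · rw [h]
    push_cast
    exact h3
  · obtain ⟨hga, hra⟩ := hray a
    rw [hga] at hg h
    have h5 := h4 a (hra ha) hg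
    rw [h, ← h5]
    congr 1
    push_cast
    ring

end Pool.Agent.W425.GN
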