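import Pool.Agent.W425.GN.GenF
import Pool.Agent.W193.GN.B1L
import Pool.Agent.W422.GC.Up

set_option autoImplicit false

/-! Project GN: topological zeta functions for generic coefficients. -/

namespace Pool.Agent.W425.GN

open MvPolynomial Pool.Agent.H628R4.TP Pool.Agent.W425.MM Pool.Agent.W425.SM
  Pool.Agent.W422.GC
open Pool.Agent.W425.ND (spa)

variable {r N : ℕ}

theorem dvd_iff (Z : RatFunc ℂ) (b : Polynomial ℂ) :
    (∃ P : Polynomial ℂ, algebraMap (Polynomial ℂ) (RatFunc ℂ) b * Z =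
      algebraMap (Polynomial ℂ) (RatFunc ℂ) P) ↔ Z.denom ∣ b := by
  have hd : algebraMap (Polynomial ℂ) (RatFunc ℂ) Z.denom ≠ 0 :=
    RatFunc.algebraMap_ne_zero (RatFunc.denom_ne_zero Z)
  have he : Z * algebraMap (Polynomial ℂ) (RatFunc ℂ) Z.denom =
      algebraMap (Polynomial ℂ) (RatFunc ℂ) Z.num := by
    have h1 := RatFunc.num_div_denom Z
    rw [div_eq_iff hd] at h1
    exact h1.symm
  constructor
  · rintro ⟨P, hP⟩
    have h1 : algebraMap (Polynomial ℂ) (RatFunc ℂ) (b * Z.num) =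
        algebraMap (Polynomial ℂ) (RatFunc ℂ) (P * Z.denom) := by
      rw [map_mul, map_mul, ← hP, mul_assoc, he]
    have h2 : b * Z.num = P * Z.denom := RatFunc.algebraMap_injective _ h1
    exact (RatFunc.isCoprime_num_denom Z).symm.dvd_of_dvd_mul_right (h2 ▸ dvd_mul_left _ _)
  · rintro ⟨t, rfl⟩
    refine ⟨t * Z.num, ?_⟩
    rw [map_mul, map_mul, ← he]
    ring

/-- the poles of `Z` are rational -/
def RR (Z : RatFunc ℂ) : Prop := ∀ z : ℂ, Z.denom.IsRoot z → ∃ q : ℚ, z = (q : ℂ)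

lemma RR.add {x y : RatFunc ℂ} (hx : RR x) (hy : RR y) : RR (x + y) := by
  intro z hz
  have h := hz.dvd (RatFunc.denom_add_dvd x y)
  rw [Polynomial.IsRoot, Polynomial.eval_mul, mul_eq_zero] at h
  exact h.elim (hx z) (hy z)

lemma RR.mul {x y : RatFunc ℂ} (hx : RR x) (hy : RR y) : RR (x * y) := by
  intro z hz
  have h := hz.dvd (RatFunc.denom_mul_dvd x y)
  rw [Polynomial.IsRoot, Polynomial.eval_mul, mul_eq_zero] at h
  exact h.elim (hx z) (hy z)

lemma RR.poly (p : Polynomial ℂ) : RR (algebraMap (Polynomial ℂ) (RatFunc ℂ) p) := by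
  intro z hz
  rw [RatFunc.denom_algebraMap, Polynomial.IsRoot, Polynomial.eval_one] at hz
  exact absurd hz one_ne_zero

lemma RR.zero : RR 0 := by
  have := RR.poly 0
  rwa [map_zero] at this

lemma RR.one : RR 1 := by
  have := RR.poly 1
  rwa [map_one] at this

lemma RR.const (c : ℂ) : RR (RatFunc.C c) := by
  have := RR.poly (Polynomial.C c)
  rwa [RatFunc.algebraMap_C] at this

lemma RR.sum {ι : Type*} (s : Finset ι) (Z : ι → RatFunc ℂ) (h : ∀ i ∈ s, RR (Z i)) :
    RR (∑ i ∈ s, Z i) := by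
  classical
  induction s using Finset.induction_on with
  | empty => rw [Finset.sum_empty]; exact RR.zero
  | insert i s hi ih =>
    rw [Finset.sum_insert hi]
    exact (h i (Finset.mem_insert_self _ _)).add (ih fun j hj => h j (Finset.mem_insert_of_mem hj))

lemma RR.prod {ι : Type*} (s : Finset ι) (Z : ι → RatFunc ℂ) (h : ∀ i ∈ s, RR (Z i)) :
    RR (∏ i ∈ s, Z i) := by
  classical
  induction s using Finset.induction_on with
  | empty => rw [Finset.prod_empty]; exact RR.one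
  | insert i s hi ih =>
    rw [Finset.prod_insert hi]
    exact (h i (Finset.mem_insert_self _ _)).mul (ih fun j hj => h j (Finset.mem_insert_of_mem hj))

lemma RR.lin (a b : ℕ) : RR (((a : RatFunc ℂ) * RatFunc.X + (b : RatFunc ℂ))⁻¹) := by
  have e : (a : RatFunc ℂ) * RatFunc.X + (b : RatFunc ℂ) = algebraMap (Polynomial ℂ) (RatFunc ℂ)
      (Polynomial.C (a : ℂ) * Polynomial.X + Polynomial.C (b : ℂ)) := by
    simp
  by_cases h0 : (a : RatFunc ℂ) * RatFunc.X + (b : RatFunc ℂ) = 0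
  · rw [h0, inv_zero]
    exact RR.zero
  · intro z hz
    have h := hz.dvd (RatFunc.denom_inv_dvd h0)
    rw [e, RatFunc.num_algebraMap] at h
    rw [Polynomial.IsRoot] at h
    simp only [Polynomial.eval_add, Polynomial.eval_mul, Polynomial.eval_C,
      Polynomial.eval_X] at h
    have ha : (a : ℂ) ≠ 0 := by
      intro ha
      rw [ha, zero_mul, zero_add] at h
      apply h0
      rw [e, ha, h]
      simp
    refine ⟨-((b : ℚ) / a), ?_⟩
    push_cast
    field_simp
    linear_combination h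

lemma RR.lin1 : RR ((RatFunc.X + 1 : RatFunc ℂ)⁻¹) := by
  have := RR.lin 1 1
  simpa using this

lemma rr_topZetaG (v : Fin r → Fin N → ℕ) (R : SmoothFan N) : RR (topZetaG v R) := by
  unfold topZetaG
  refine RR.sum _ _ fun σ _ => RR.mul ((RR.const _).add ((RR.const _).mul RR.lin1))
    (RR.prod _ _ fun ρ _ => RR.lin _ _)

lemma rr_topZetaGLocal (v : Fin r → Fin N → ℕ) (R : SmoothFan N) :
    RR (topZetaGLocal v R) := by
  classical
  unfold topZetaGLocal
  refine RR.sum _ _ fun σ _ => RR.mul ((RR.const _).add ((RR.const _).mul RR.lin1))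
    (RR.prod _ _ fun ρ _ => RR.lin _ _)

/-- a polynomial is divisible by another one if this holds for the powers of the linear factors -/
lemma dvd_of_mult {q b : Polynomial ℂ} (hq : q ≠ 0)
    (h : ∀ z : ℂ, q.IsRoot z → (Polynomial.X - Polynomial.C z) ^ q.rootMultiplicity z ∣ b) :
    q ∣ b := by
  classical
  by_cases hb : b = 0
  · rw [hb]; exact dvd_zero _
  refine ((IsAlgClosed.splits q).dvd_iff_roots_le_roots hq hb).2 ?_
  rw [Multiset.le_iff_count]
  intro z
  rw [Polynomial.count_roots, Polynomial.count_roots]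
  by_cases hz : q.IsRoot z
  · exact (Polynomial.le_rootMultiplicity_iff hb).2 (h z hz)
  · rw [Polynomial.rootMultiplicity_eq_zero hz]
    exact Nat.zero_le _

/-- From very general to generic coefficients. -/
theorem top_core {F : Type} [Field F] (v : Fin r → Fin N → ℕ) (h : MvPolynomial (Fin N) F)
    (Z : RatFunc ℂ) (hZ : RR Z)
    (H : ∀ (F' : Type) [Field F'] [Algebra F' ℂ] (a : Fin r → ℂ) (h' : MvPolynomial (Fin N) F'),
      AlgebraicIndependent F' a → (∀ w ∈ h'.support, w ∈ h.support) → ∀ b : Polynomial ℂ,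
      FEq (spa v a + MvPolynomial.map (algebraMap F' ℂ) h') b →
      ∃ P : Polynomial ℂ, algebraMap (Polynomial ℂ) (RatFunc ℂ) b * Z =
        algebraMap (Polynomial ℂ) (RatFunc ℂ) P)
    (b : Polynomial ℂ) (hb : ∀ (α : ℚ) (m : ℕ), HP v h α m →
        (Polynomial.X - Polynomial.C (α : ℂ)) ^ (m + 1) ∣ b) :
    ∃ P : Polynomial ℂ, algebraMap (Polynomial ℂ) (RatFunc ℂ) b * Z =
        algebraMap (Polynomial ℂ) (RatFunc ℂ) P := by
  refine (dvd_iff Z b).2 (dvd_of_mult (RatFunc.denom_ne_zero Z) fun z hz => ?_)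
  obtain ⟨q, rfl⟩ := hZ z hz
  have hpos : 0 < Z.denom.rootMultiplicity (q : ℂ) :=
    (Polynomial.rootMultiplicity_pos (RatFunc.denom_ne_zero Z)).2 hz
  have h1 := hb q (Z.denom.rootMultiplicity (q : ℂ) - 1) (fun F' _ _ a h' ha hs b' hb' => by
    have h2 := (dvd_iff Z b').1 (H F' a h' ha hs b' hb')
    rw [Nat.sub_add_cancel hpos]
    exact (Polynomial.pow_rootMultiplicity_dvd _ _).trans h2)
  rwa [Nat.sub_add_cancel hpos] at h1

/-- From very general to generic coefficients, local version. -/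
theorem top_coreL {F : Type} [Field F] (v : Fin r → Fin N → ℕ) (h : MvPolynomial (Fin N) F)
    (Z : RatFunc ℂ) (hZ : RR Z)
    (H : ∀ (F' : Type) [Field F'] [Algebra F' ℂ] (a : Fin r → ℂ) (h' : MvPolynomial (Fin N) F'),
      AlgebraicIndependent F' a → (∀ w ∈ h'.support, w ∈ h.support) → ∀ b : Polynomial ℂ,
      FEqL (spa v a + MvPolynomial.map (algebraMap F' ℂ) h') b →
      ∃ P : Polynomial ℂ, algebraMap (Polynomial ℂ) (RatFunc ℂ) b * Z =
        algebraMap (Polynomial ℂ) (RatFunc ℂ) P)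
    (b : Polynomial ℂ) (hb : ∀ (α : ℚ) (m : ℕ), HPL v h α m →
        (Polynomial.X - Polynomial.C (α : ℂ)) ^ (m + 1) ∣ b) :
    ∃ P : Polynomial ℂ, algebraMap (Polynomial ℂ) (RatFunc ℂ) b * Z =
        algebraMap (Polynomial ℂ) (RatFunc ℂ) P := by
  refine (dvd_iff Z b).2 (dvd_of_mult (RatFunc.denom_ne_zero Z) fun z hz => ?_)
  obtain ⟨q, rfl⟩ := hZ z hz
  have hpos : 0 < Z.denom.rootMultiplicity (q : ℂ) :=
    (Polynomial.rootMultiplicity_pos (RatFunc.denom_ne_zero Z)).2 hz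
  have h1 := hb q (Z.denom.rootMultiplicity (q : ℂ) - 1) (fun F' _ _ a h' ha hs b' hb' => by
    have h2 := (dvd_iff Z b').1 (H F' a h' ha hs b' hb')
    rw [Nat.sub_add_cancel hpos]
    exact (Polynomial.pow_rootMultiplicity_dvd _ _).trans h2)
  rwa [Nat.sub_add_cancel hpos] at h1

theorem pB1L : TaskB1L := Pool.Agent.W193.GN.b1L

/-- the local functional equation and `J` -/
lemma feqL_iff {n : ℕ} (f : MvPolynomial (Fin n) ℂ) (b : Polynomial ℂ) :
    Pool.Agent.W591.GC.J (Pool.Agent.W591.GC.S1 n) f 1 b ↔ FEqL f b := by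
  rw [Pool.Agent.W591.GC.J_iff]
  constructor
  · rintro ⟨g, hg, P, hP⟩
    obtain ⟨P', hP'⟩ := (pB1L pA1 pA5 f b g).1 ⟨P, fun s => by rw [← hP s, mul_assoc]⟩
    exact ⟨g, P', Pool.Agent.W591.GC.mem_S1.1 hg, fun s => hP' s⟩
  · rintro ⟨u, P, hu, hP⟩
    obtain ⟨P', hP'⟩ := (pB1L pA1 pA5 f b u).2 ⟨P, fun s => hP s⟩
    exact ⟨u, Pool.Agent.W591.GC.mem_S1.2 hu, P', fun s => by rw [← mul_assoc]; exact hP' s⟩

/-- **The global topological zeta function, generic coefficients.** -/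
theorem gen_top {F : Type} [Field F] [Algebra F ℂ] (hr : 1 ≤ r)
    (v : Fin r → Fin N → ℕ) (hv : Function.Injective v) (hv0 : ∀ j, v j ≠ 0)
    (h : MvPolynomial (Fin N) F) (hh : ∀ w ∈ h.support, Pool.Agent.W425.SV.Hull v w) :
    ∃ g : MvPolynomial (Fin r) F, g ≠ 0 ∧ ∀ a : Fin r → ℂ, aeval a g ≠ 0 →
      NonD (Fin.append v (we h)) (Fin.append a (fun l => algebraMap F ℂ (wc h l))) ∧
      ∀ b : Polynomial ℂ, IsBFunction (sparse v a + MvPolynomial.map (algebraMap F ℂ) h) b →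
      ∀ R : SmoothFan N, Principal v R →
        ∃ P : Polynomial ℂ, algebraMap (Polynomial ℂ) (RatFunc ℂ) b * topZetaG v R =
          algebraMap (Polynomial ℂ) (RatFunc ℂ) P := by
  have hh' : ∀ w ∈ h.support, Pool.Agent.W425.SV.NP v w := fun w hw => by
    obtain ⟨l, h1, h2, h3⟩ := hh w hw
    exact ⟨l, h1, h2, fun i => (h3 i).le⟩
  obtain ⟨g1, hg1, h1⟩ := univ pF4 pR1 (show 0 < r by omega) v hv h
  obtain ⟨g2, hg2, h2⟩ := gen_nonDF pF4 (show 0 < r by omega) v (we h) (we_np v h hh') (wc h)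
  refine ⟨g1 * g2, mul_ne_zero hg1 hg2, fun a ha => ?_⟩
  rw [map_mul] at ha
  refine ⟨h2 _ (right_ne_zero_of_mul ha), fun b hb R hR => ?_⟩
  exact top_core v h (topZetaG v R) (rr_topZetaG v R) (fun F' _ _ a' h' ha' hs b' hb' =>
    finalGlobalC hr v a' hv hv0 ha' h' (fun w hw => hh w (hs w hw)) R hR b'
      ((bfun_iff _ _).2 hb')) b (h1 a (left_ne_zero_of_mul ha) b ((bfun_iff _ _).1 hb))

/-- nonzero for generic coefficients -/
lemma gen_ne {F : Type} [Field F] [Algebra F ℂ] (hr : 0 < r)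
    (v : Fin r → Fin N → ℕ) (hv : Function.Injective v) (h : MvPolynomial (Fin N) F) :
    ∃ g : MvPolynomial (Fin r) F, g ≠ 0 ∧ ∀ a : Fin r → ℂ, aeval a g ≠ 0 →
      spa v a + MvPolynomial.map (algebraMap F ℂ) h ≠ 0 := by
  refine ⟨X ⟨0, hr⟩ + C (coeff (Finsupp.equivFunOnFinite.symm (v ⟨0, hr⟩)) h), fun h3 => ?_,
    fun a ha h1 => ha ?_⟩
  · have h4 := congrArg (coeff (Finsupp.single (⟨0, hr⟩ : Fin r) 1)) h3
    rw [coeff_add, coeff_X, if_pos rfl, coeff_C, if_neg, coeff_zero, add_zero] at h4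
    · exact one_ne_zero h4
    · intro h5
      have := congrArg (fun f => f ⟨0, hr⟩) h5
      simp at this
  · have h2 := congrArg (coeff (Finsupp.equivFunOnFinite.symm (v ⟨0, hr⟩))) h1
    rw [coeff_add, coef_spa v hv, coeff_zero, coeff_map] at h2
    rw [map_add, aeval_X, aeval_C]
    exact h2

/-- **The local topological zeta function, generic coefficients.** -/
theorem gen_topL {F : Type} [Field F] [Algebra F ℂ] (hr : 1 ≤ r)
    (v : Fin r → Fin N → ℕ) (hv : Function.Injective v) (hv0 : ∀ j, v j ≠ 0)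
    (h : MvPolynomial (Fin N) F) (hh : ∀ w ∈ h.support, Pool.Agent.W425.SV.NP v w) :
    ∃ g : MvPolynomial (Fin r) F, g ≠ 0 ∧ ∀ a : Fin r → ℂ, aeval a g ≠ 0 →
      NonD (Fin.append v (we h)) (Fin.append a (fun l => algebraMap F ℂ (wc h l))) ∧
      ∀ b : Polynomial ℂ, IsLocalBFunction (sparse v a + MvPolynomial.map (algebraMap F ℂ) h) b →
      ∀ R : SmoothFan N, Principal v R →
        ∃ P : Polynomial ℂ, algebraMap (Polynomial ℂ) (RatFunc ℂ) b * topZetaGLocal v R =
          algebraMap (Polynomial ℂ) (RatFunc ℂ) P := by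
  have hne : NeZero r := ⟨by omega⟩
  obtain ⟨g1, hg1, h1⟩ := univL pF4 pR1 pG2 (show 0 < r by omega) v hv h
  obtain ⟨g2, hg2, h2⟩ := gen_nonDF pF4 (show 0 < r by omega) v (we h) (we_np v h hh) (wc h)
  obtain ⟨g3, hg3, h3⟩ := gen_ne (show 0 < r by omega) v hv h
  refine ⟨g1 * (g2 * g3), mul_ne_zero hg1 (mul_ne_zero hg2 hg3), fun a ha => ?_⟩
  rw [map_mul, map_mul] at ha
  refine ⟨h2 _ (left_ne_zero_of_mul (right_ne_zero_of_mul ha)), fun b hb R hR => ?_⟩
  refine top_coreL v h (topZetaGLocal v R) (rr_topZetaGLocal v R)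
    (fun F' _ _ a' h' ha' hs b' hb' => ?_) b (h1 a (left_ne_zero_of_mul ha) b ?_)
  · rw [← topZG_neg]
    exact final_J True (Pool.Agent.W591.GC.S1 N) (fun g hg => ⟨Pool.Agent.W591.GC.mem_S1.1 hg,
      fun h => absurd trivial h⟩) v a' hv hv0 ha' h' (fun w hw => hh w (hs w hw)) R hR (-1)
      (by norm_num) (fun _ => by norm_num) b' ((feqL_iff _ _).2 hb')
  · obtain ⟨_, c, P, hc, hP⟩ := Pool.Agent.W368.SL.taskL1 _ _
      (h3 a (right_ne_zero_of_mul (right_ne_zero_of_mul ha)))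
      (Pool.Agent.W425.SV.f_const hv0 a h hh) (Pool.Agent.W425.SL.toSL hb)
    refine (feqL_iff _ _).1 ((Pool.Agent.W591.GC.J_iff _ _ b).2
      ⟨c, Pool.Agent.W591.GC.mem_S1.2 hc, P, fun s => ?_⟩)
    rw [← hP s]
    ring

end Pool.Agent.W425.GN
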