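import Pool.Agent.W425.GN.Top
import Pool.Agent.W425.SU.Final

set_option autoImplicit false

/-! Project GN: ideals with generic coefficients. -/

namespace Pool.Agent.W425.GN

open MvPolynomial Pool.Agent.H628R4.TP Pool.Agent.W425.MM Pool.Agent.W425.SM Pool.Agent.W425.SI
  Pool.Agent.W425.SU

variable {r k N : ℕ}

/-- **The topological zeta function of an ideal, generic coefficients.** -/
theorem gen_ideal {F : Type} [Field F] [Algebra F ℂ] (hr : 1 ≤ r) (π : Fin r → Fin k)
    (w : Fin r → Fin N → ℕ) (hw : Function.Injective fun j => (π j, w j))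
    (h : Fin k → MvPolynomial (Fin N) F) (hh : ∀ i, ∀ u ∈ (h i).support, HullAt π w i u) :
    ∃ G : MvPolynomial (Fin r) F, G ≠ 0 ∧ ∀ a : Fin r → ℂ, aeval a G ≠ 0 →
      NonD (Fin.append (cay π w) (we (cayH h)))
        (Fin.append a (fun l => algebraMap F ℂ (wc (cayH h) l))) ∧
      ∀ (f : Fin k → MvPolynomial (Fin N) ℂ) (c : Fin k → ℂ) (t : Fin N → ℂ), (∀ i, c i ≠ 0) →
        (∀ l, t l ≠ 0) → (∀ i, C (c i) * aeval (fun l => C (t l) * X l) (f i) =
          gens π w a i + MvPolynomial.map (algebraMap F ℂ) (h i)) →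
        ∀ b : Polynomial ℂ, Pool.Agent.W574.SM.IsFunctionalEq f b →
        ∀ R : SmoothFan (k + N), Principal (cay π w) R →
        ∃ P : Polynomial ℂ, algebraMap (Polynomial ℂ) (RatFunc ℂ) b * topZetaI π w R =
          algebraMap (Polynomial ℂ) (RatFunc ℂ) P := by
  obtain ⟨G, hG, hGa⟩ := gen_top (F := F) hr (cay π w) (cay_inj hw) (cay_ne_zero π w) (cayH h)
    (cayH_hull π w h hh)
  refine ⟨G, hG, fun a ha => ⟨(hGa a ha).1, fun f c t hc ht hf b hb R hR => ?_⟩⟩
  have h1 := Pool.Agent.W366.SI.taskI1 f _ hb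
  have h2 := Pool.Agent.W578.SI.taskI2.1 (finSumFinEquiv : Fin k ⊕ Fin N ≃ Fin (k + N)) _ _ h1
  have h3 := Pool.Agent.W578.SI.taskI2.2.1 _ _ 1 (Fin.append c t) one_ne_zero (fun m => by
    refine Fin.addCases (fun i => ?_) (fun l => ?_) m
    · simpa using hc i
    · simpa using ht l) h2
  rw [scale_univ, funext hf, univ_add, map_add, rename_univ, rename_univ_map] at h3
  obtain ⟨P, hP⟩ := (hGa a ha).2 _ h3 R hR
  refine ⟨P, ?_⟩
  rw [← hP, map_mul, topZetaI]
  have h5 : algebraMap (Polynomial ℂ) (RatFunc ℂ) (Polynomial.X + 1) = RatFunc.X + 1 := by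
    rw [map_add, map_one, RatFunc.algebraMap_X]
  rw [h5]
  ring

end Pool.Agent.W425.GN
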