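import Mathlib
import Pool.Agent.H628R4.TP.Defs

set_option autoImplicit false

/-! Project GN: Bernstein-Sato polynomials in families: definitions and statements of the parts. -/

namespace Pool.Agent.W425.GN

open MvPolynomial Pool.Agent.H628R4.TP

/-- The variables of the symbols of the differential operators: `none` is `s`, `some (Sum.inl i)` is
`x_i`, `some (Sum.inr i)` is `∂_i`. -/
abbrev Sy (n : ℕ) : Type := Option (Fin n ⊕ Fin n)

section
variable {n : ℕ} {R : Type} [CommRing R]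

/-- the operator `∂ ^ β` -/
noncomputable def dd (β : Fin n → ℕ) : MvPolynomial (Fin n) R →ₗ[R] MvPolynomial (Fin n) R :=
  (basisMonomials (Fin n) R).constr R fun w =>
    monomial (w - Finsupp.equivFunOnFinite.symm β) (∏ i, ((w i).descFactorial (β i) : R))

/-- the action of the normally ordered operator `P = ∑ c s ^ k x ^ α ∂ ^ β` on `φ`, at the value
`s` -/
noncomputable def actL (s : ℕ) (φ : MvPolynomial (Fin n) R) :
    MvPolynomial (Sy n) R →ₗ[R] MvPolynomial (Fin n) R :=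
  (basisMonomials (Sy n) R).constr R fun m =>
    ((s : R) ^ m none) • ((∏ i, X i ^ m (some (Sum.inl i))) *
      dd (fun i => m (some (Sum.inr i))) φ)

/-- the action of the operator with symbol `P` at the value `s` on `φ` -/
noncomputable def act (P : MvPolynomial (Sy n) R) (s : ℕ) (φ : MvPolynomial (Fin n) R) :
    MvPolynomial (Fin n) R := actL s φ P

/-- left multiplication by `s` -/
noncomputable def ls (P : MvPolynomial (Sy n) R) : MvPolynomial (Sy n) R := X none * P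

/-- left multiplication by `x_i` -/
noncomputable def lx (i : Fin n) (P : MvPolynomial (Sy n) R) : MvPolynomial (Sy n) R :=
  X (some (Sum.inl i)) * P

/-- left multiplication by `∂_i` -/
noncomputable def ld (i : Fin n) (P : MvPolynomial (Sy n) R) : MvPolynomial (Sy n) R :=
  X (some (Sum.inr i)) * P + pderiv (some (Sum.inl i)) P

/-- stable under the left multiplications -/
def Stab (I : Submodule R (MvPolynomial (Sy n) R)) : Prop :=
  ∀ P ∈ I, ls P ∈ I ∧ ∀ i, lx i P ∈ I ∧ ld i P ∈ I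

/-- the symbol of an operator without derivatives -/
noncomputable def sy : Polynomial (MvPolynomial (Fin n) R) →+* MvPolynomial (Sy n) R :=
  Polynomial.eval₂RingHom (rename (some ∘ Sum.inl) :
    MvPolynomial (Fin n) R →ₐ[R] MvPolynomial (Sy n) R).toRingHom (X none)

end

/-- Part A1: the left multiplications. -/
def TaskA1 : Prop := ∀ {n : ℕ} {R : Type} [CommRing R] (P : MvPolynomial (Sy n) R) (s : ℕ)
  (φ : MvPolynomial (Fin n) R), act (1 : MvPolynomial (Sy n) R) s φ = φ ∧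
  act (ls P) s φ = (s : MvPolynomial (Fin n) R) * act P s φ ∧
  (∀ i, act (lx i P) s φ = X i * act P s φ) ∧ (∀ i, act (ld i P) s φ = pderiv i (act P s φ)) ∧
  (∀ ψ, act P s (φ + ψ) = act P s φ + act P s ψ) ∧ ∀ c, act P s (C c * φ) = C c * act P s φ

/-- Part A5: the composition. -/
def TaskA5 : Prop := TaskA1 → ∀ {n : ℕ} {R : Type} [CommRing R] (P Q : MvPolynomial (Sy n) R),
  ∃ W : MvPolynomial (Sy n) R, ∀ (s : ℕ) (φ : MvPolynomial (Fin n) R),
    act Q s (act P s φ) = act W s φ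

/-- Part A2: the right multiplications by polynomials. -/
def TaskA2 : Prop := ∀ {n : ℕ} {R : Type} [CommRing R] (g : MvPolynomial (Fin n) R),
  ∃ L : MvPolynomial (Sy n) R →ₗ[R] MvPolynomial (Sy n) R, ∀ (P : MvPolynomial (Sy n) R) (s : ℕ)
    (φ : MvPolynomial (Fin n) R), act (L P) s φ = act P s (g * φ)

/-- Part A3: shifts in `s`, ring homomorphisms and operators without derivatives. -/
def TaskA3 : Prop := ∀ {n : ℕ} {R : Type} [CommRing R],
  (∃ L : MvPolynomial (Sy n) R →ₗ[R] MvPolynomial (Sy n) R, ∀ (P : MvPolynomial (Sy n) R)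
    (s : ℕ) (φ : MvPolynomial (Fin n) R), act (L P) s φ = act P (s + 1) φ) ∧
  (∃ L : MvPolynomial (Sy n) R →ₗ[R] MvPolynomial (Sy n) R, ∀ (P : MvPolynomial (Sy n) R)
    (s : ℕ) (φ : MvPolynomial (Fin n) R), act (L P) (s + 1) φ = act P s φ) ∧
  (∀ {S : Type} [CommRing S] (e : R →+* S) (P : MvPolynomial (Sy n) R) (s : ℕ)
    (φ : MvPolynomial (Fin n) R),
    MvPolynomial.map e (act P s φ) = act (MvPolynomial.map e P) s (MvPolynomial.map e φ)) ∧
  (∀ (w : Polynomial (MvPolynomial (Fin n) R)) (s : ℕ) (φ : MvPolynomial (Fin n) R),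
    act (sy w) s φ = w.eval (s : MvPolynomial (Fin n) R) * φ) ∧
  ∀ {S : Type} [CommRing S] (e : R →+* S) (w : Polynomial (MvPolynomial (Fin n) R)),
    w.map (MvPolynomial.map e) = 0 → MvPolynomial.map e (sy w) = 0

/-- Part A4: the action on the powers of `f`. -/
def TaskA4 : Prop := ∀ {n : ℕ} {R : Type} [CommRing R] (f : MvPolynomial (Fin n) R)
  (P : MvPolynomial (Sy n) R), ∃ (d : ℕ) (w : Polynomial (MvPolynomial (Fin n) R)), ∀ s : ℕ,
    f ^ d * act P s (f ^ s) = w.eval (s : MvPolynomial (Fin n) R) * f ^ s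

/-- Part G1: Groebner bases of left ideals, which specialise well. -/
def TaskG1 : Prop := ∀ {n : ℕ} {K : Type} [Field K] (I : Submodule K (MvPolynomial (Sy n) K)),
  Stab I → ∃ (B : Set (Sy n →₀ ℕ)) (G : Finset (MvPolynomial (Sy n) K)),
    (∀ P ∈ G, P ∈ I) ∧
    (∀ P ∈ I, (∀ m ∈ P.support, m ∈ B) → P = 0) ∧
    ∀ {R : Type} [CommRing R] (ι : R →+* K), Function.Injective ι →
      (∀ P ∈ G, ∃ P', MvPolynomial.map ι P' = P) →
      ∀ M : Submodule R (MvPolynomial (Sy n) R), Stab M →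
      (∀ P', MvPolynomial.map ι P' ∈ G → P' ∈ M) →
      ∀ W : MvPolynomial (Sy n) R, ∃ Q : MvPolynomial (Sy n) R,
        (∀ m ∈ Q.support, m ∈ B) ∧ W - Q ∈ M

/-- There is an identity
`(s - α) ^ m f ^ s = P(s) f ^ (s + 1) + (s - α) ^ (m + 1) Q(s) f ^ s`. -/
def Bad {n : ℕ} {R : Type} [CommRing R] (f : MvPolynomial (Fin n) R) (α : R) (m : ℕ) : Prop :=
  ∃ (P Q : MvPolynomial (Sy n) R) (s0 : ℕ), ∀ s ≥ s0,
    C (((s : R) - α) ^ m) * f ^ s =
      act P s (f ^ (s + 1)) + C (((s : R) - α) ^ (m + 1)) * act Q s (f ^ s)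

/-- Part S1: the operators which map `f ^ s` into `D f ^ (s + 1)`. -/
def TaskS1 : Prop := TaskG1 → TaskA1 → TaskA2 → TaskA3 → ∀ {n : ℕ} {K : Type} [Field K]
  (f : MvPolynomial (Fin n) K), ∃ Z : Finset K, ∀ {R : Type} [CommRing R] (ι : R →+* K),
    Function.Injective ι → (∀ z ∈ Z, ∃ y, ι y = z) →
    ∀ fR : MvPolynomial (Fin n) R, MvPolynomial.map ι fR = f →
    ∀ {κ : Type} [Field κ] (e : R →+* κ) (d : ℕ) (W w : MvPolynomial (Sy n) R),
    MvPolynomial.map e w = 0 →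
    (∃ s0, ∀ s ≥ s0, act W (s + d) (fR ^ (s + d)) = act w s (fR ^ s)) →
    ∃ T : MvPolynomial (Sy n) R, MvPolynomial.map e T = 0 ∧
      ∃ s0, ∀ s ≥ s0, act W s (fR ^ s) = act T s (fR ^ s)

/-- the conclusion of Part S1 -/
def SpecW : Prop := ∀ {n : ℕ} {K : Type} [Field K]
  (f : MvPolynomial (Fin n) K), ∃ Z : Finset K, ∀ {R : Type} [CommRing R] (ι : R →+* K),
    Function.Injective ι → (∀ z ∈ Z, ∃ y, ι y = z) →
    ∀ fR : MvPolynomial (Fin n) R, MvPolynomial.map ι fR = f →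
    ∀ {κ : Type} [Field κ] (e : R →+* κ) (d : ℕ) (W w : MvPolynomial (Sy n) R),
    MvPolynomial.map e w = 0 →
    (∃ s0, ∀ s ≥ s0, act W (s + d) (fR ^ (s + d)) = act w s (fR ^ s)) →
    ∃ T : MvPolynomial (Sy n) R, MvPolynomial.map e T = 0 ∧
      ∃ s0, ∀ s ≥ s0, act W s (fR ^ s) = act T s (fR ^ s)

/-- Part S2: specialisation of `¬ Bad`. -/
def TaskS2 : Prop := SpecW → TaskG1 → TaskA1 → TaskA2 → TaskA3 → TaskA4 → ∀ {n : ℕ} {K : Type}
  [Field K] (f : MvPolynomial (Fin n) K) (α : K) (m : ℕ), ¬ Bad f α m →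
  ∃ Z : Finset K, ∀ {R : Type} [CommRing R] (ι : R →+* K), Function.Injective ι →
    (∀ z ∈ Z, ∃ y, ι y = z) → ∀ fR : MvPolynomial (Fin n) R, MvPolynomial.map ι fR = f →
    ∀ αR : R, ι αR = α → ∀ {κ : Type} [Field κ] [CharZero κ] (e : R →+* κ),
    Function.Surjective e → MvPolynomial.map e fR ≠ 0 → ¬ Bad (MvPolynomial.map e fR) (e αR) m

/-- `f` satisfies the functional equation of `b`, in terms of symbols. -/
def FEq {n : ℕ} (f : MvPolynomial (Fin n) ℂ) (b : Polynomial ℂ) : Prop :=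
  ∃ P : MvPolynomial (Sy n) ℂ, ∀ s : ℕ, C (b.eval (s : ℂ)) * f ^ s = act P s (f ^ (s + 1))

/-- Part B1: the Weyl algebra and the symbols. -/
def TaskB1 : Prop := TaskA1 → TaskA5 → ∀ {n : ℕ} (f : MvPolynomial (Fin n) ℂ) (b : Polynomial ℂ),
  IsBFunction f b ↔ FEq f b

/-- Part B2: the roots of the `b`-functions, special fibre. -/
def TaskB2 : Prop := TaskA1 → TaskA3 → ∀ {n : ℕ} (f : MvPolynomial (Fin n) ℂ) (b : Polynomial ℂ), FEq f b →
  ∀ (α : ℂ) (m : ℕ), ¬ Bad f α m → (Polynomial.X - Polynomial.C α) ^ (m + 1) ∣ b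

/-- Bernstein's theorem -/
def Bernstein : Prop := ∀ {n : ℕ} (f : MvPolynomial (Fin n) ℂ), f ≠ 0 →
  ∃ b : Polynomial ℂ, b ≠ 0 ∧ FEq f b

/-- Part B3: the roots of the `b`-functions, generic fibre. -/
def TaskB3 : Prop := Bernstein → TaskA1 → TaskA2 → TaskA3 → TaskA4 → TaskA5 → ∀ {n : ℕ}
  (f : MvPolynomial (Fin n) ℂ), f ≠ 0 → ∀ (α : ℂ) (m : ℕ),
  (∀ b : Polynomial ℂ, FEq f b → (Polynomial.X - Polynomial.C α) ^ (m + 1) ∣ b) → ¬ Bad f α m

/-- Part F1: an embedding of fields. -/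
def TaskF1 : Prop := ∀ r : ℕ, Nonempty (FractionRing (MvPolynomial (Fin r) ℂ) →+* ℂ)

/-- Part F2: finitely many elements of the fraction field are defined at the points of a nonempty
Zariski-open set. -/
def TaskF2 : Prop := ∀ {r : ℕ} (Z : Finset (FractionRing (MvPolynomial (Fin r) ℂ))),
  ∃ g : MvPolynomial (Fin r) ℂ, g ≠ 0 ∧ ∀ a : Fin r → ℂ, eval a g ≠ 0 →
    ∃ (R : Type) (_ : CommRing R) (ι : R →+* FractionRing (MvPolynomial (Fin r) ℂ))
      (j : MvPolynomial (Fin r) ℂ →+* R) (e : R →+* ℂ), Function.Injective ι ∧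
      (∀ z ∈ Z, ∃ y, ι y = z) ∧
      (∀ p, ι (j p) = algebraMap (MvPolynomial (Fin r) ℂ) (FractionRing (MvPolynomial (Fin r) ℂ)) p) ∧
      ∀ p, e (j p) = eval a p

/-! ### Bernstein's theorem -/

/-- A module over the Weyl algebra. -/
structure WMod (n : ℕ) (E N : Type) [Field E] [AddCommGroup N] [Module E N] where
  x : Fin n → N →ₗ[E] N
  d : Fin n → N →ₗ[E] N
  xx : ∀ i j w, x i (x j w) = x j (x i w)
  dd : ∀ i j w, d i (d j w) = d j (d i w)
  dx : ∀ i j w, d i (x j w) = x j (d i w) + if i = j then w else 0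

namespace WMod
variable {n : ℕ} {E N : Type} [Field E] [AddCommGroup N] [Module E N]

/-- the span of the images of `G` under at most `v` of the operators -/
noncomputable def B (D : WMod n E N) (G : Submodule E N) : ℕ → Submodule E N
  | 0 => G
  | v + 1 => D.B G v ⊔ ((⨆ i, (D.B G v).map (D.x i)) ⊔ ⨆ i, (D.B G v).map (D.d i))

/-- invariant subspaces -/
def Inv (D : WMod n E N) (L : Submodule E N) : Prop := ∀ w ∈ L, ∀ i, D.x i w ∈ L ∧ D.d i w ∈ L

end WMod

/-- Part C1: Bernstein's inequality. -/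
def TaskC1 : Prop := ∀ {n : ℕ} {E N : Type} [Field E] [CharZero E] [AddCommGroup N] [Module E N]
  (D : WMod n E N) (w : N), w ≠ 0 → ∀ v : ℕ,
  (v + 2 * n).choose (2 * n) ≤ Module.finrank E (D.B (Submodule.span E {w}) v) *
    Module.finrank E (D.B (Submodule.span E {w}) (2 * v))

/-- Part C2: modules of growth at most `C v ^ n` satisfy the descending chain condition. -/
def TaskC2 : Prop := TaskC1 → ∀ {n : ℕ} {E N : Type} [Field E] [CharZero E] [AddCommGroup N]
  [Module E N] (D : WMod n E N) (Γ : ℕ → Submodule E N) (c : ℕ),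
  (∀ v, Γ v ≤ Γ (v + 1)) → (∀ v, ∀ w ∈ Γ v, ∀ i, D.x i w ∈ Γ (v + 1) ∧ D.d i w ∈ Γ (v + 1)) →
  (∀ v, Module.Finite E (Γ v)) → (∀ v, Module.finrank E (Γ v) ≤ c * (v + 1) ^ n) →
  ∀ (L : ℕ → Submodule E N), (∀ k, L (k + 1) ≤ L k) → (∀ k, D.Inv (L k)) →
  ∀ w : ℕ → N, (∀ k, w k ∈ L k) → (∀ k, ∃ v, w k ∈ Γ v) → ∃ k, w k ∈ L (k + 1)

/-- Part C3: Bernstein's theorem. -/
def TaskC3 : Prop := TaskC1 → TaskC2 → TaskA1 → TaskA2 → TaskA3 → TaskA4 → Bernstein

end Pool.Agent.W425.GN
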