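import Pool.Agent.W425.GN.Defs
import Pool.Agent.W425.MM.Defs2

set_option autoImplicit false

/-! Project GN: generic nondegeneracy. -/

namespace Pool.Agent.W425.GN

open MvPolynomial
open Pool.Agent.W425.SV (NP)
open Pool.Agent.W425.MM (NonD TaskGN2)

/-- Part F3: nondegeneracy for generic coefficients. -/
def TaskF3 : Prop := TaskGN2 → TaskF2 → ∀ {r q N : ℕ} (v : Fin r → Fin N → ℕ)
  (w : Fin q → Fin N → ℕ) (h : Fin q → ℂ), 0 < r →
  (∀ l, NP v (Finsupp.equivFunOnFinite.symm (w l))) →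
  ∃ g : MvPolynomial (Fin r) ℂ, g ≠ 0 ∧ ∀ a : Fin r → ℂ, eval a g ≠ 0 →
    NonD (Fin.append v w) (Fin.append a h)

end Pool.Agent.W425.GN
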