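import Pool.Agent.W425.GN.Defs

set_option autoImplicit false

/-! Project GN: the local version. -/

namespace Pool.Agent.W425.GN

open MvPolynomial Pool.Agent.H628R4.TP

/-- the weight: the degree in `s` and the `∂_i` -/
def wt {n : ℕ} (d : Sy n →₀ ℕ) : ℕ := d none + ∑ i, d (some (Sum.inr i))

/-- Part W1: a monomial order which compares the weight first. -/
def TaskW1 : Prop := ∀ n : ℕ, ∃ m : MonomialOrder.{0, 0} (Sy n), ∀ d d' : Sy n →₀ ℕ,
  wt d < wt d' → m.toSyn d < m.toSyn d'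

/-- the symbol of a polynomial -/
noncomputable def px {n : ℕ} {R : Type} [CommRing R] (t : MvPolynomial (Fin n) R) :
    MvPolynomial (Sy n) R := rename (some ∘ Sum.inl) t

/-- Part G2: Groebner bases of left ideals plus the multiples of one element by polynomials. -/
def TaskG2 : Prop := TaskW1 → ∀ {n : ℕ} {K : Type} [Field K]
  (I : Submodule K (MvPolynomial (Sy n) K)) (c : MvPolynomial (Sy n) K), Stab I →
  ∃ (B : Set (Sy n →₀ ℕ)) (G : Finset (MvPolynomial (Sy n) K)),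
    (∀ P ∈ I, ∀ t : MvPolynomial (Fin n) K,
      (∀ m ∈ (P + px t * c).support, m ∈ B) → P + px t * c = 0) ∧
    ∀ {R : Type} [CommRing R] (ι : R →+* K), Function.Injective ι →
      (∀ P ∈ G, ∃ P', MvPolynomial.map ι P' = P) →
      ∀ c' : MvPolynomial (Sy n) R, MvPolynomial.map ι c' = c →
      ∀ M : Submodule R (MvPolynomial (Sy n) R), Stab M →
      (∀ P', MvPolynomial.map ι P' ∈ G → MvPolynomial.map ι P' ∈ I → P' ∈ M) →
      ∀ W : MvPolynomial (Sy n) R, ∃ (Q : MvPolynomial (Sy n) R) (t : MvPolynomial (Fin n) R),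
        (∀ m ∈ Q.support, m ∈ B) ∧ W - Q - px t * c' ∈ M

/-- `Bad`, locally at the origin. -/
def BadL {n : ℕ} {R : Type} [CommRing R] (f : MvPolynomial (Fin n) R) (α : R) (m : ℕ) : Prop :=
  ∃ (u : MvPolynomial (Fin n) R) (P Q : MvPolynomial (Sy n) R) (s0 : ℕ), constantCoeff u = 1 ∧
    ∀ s ≥ s0, u * (C (((s : R) - α) ^ m) * f ^ s) =
      act P s (f ^ (s + 1)) + C (((s : R) - α) ^ (m + 1)) * act Q s (f ^ s)

/-- Part S2L: specialisation of `¬ BadL`. -/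
def TaskS2L : Prop := SpecW → TaskW1 → TaskG2 → TaskA1 → TaskA2 → TaskA3 → TaskA4 →
  ∀ {n : ℕ} {K : Type} [Field K] (f : MvPolynomial (Fin n) K) (α : K) (m : ℕ), ¬ BadL f α m →
  ∃ Z : Finset K, ∀ {R : Type} [CommRing R] (ι : R →+* K), Function.Injective ι →
    (∀ z ∈ Z, ∃ y, ι y = z) → ∀ fR : MvPolynomial (Fin n) R, MvPolynomial.map ι fR = f →
    ∀ αR : R, ι αR = α → ∀ {κ : Type} [Field κ] [CharZero κ] (e : R →+* κ),
    Function.Surjective e → MvPolynomial.map e fR ≠ 0 → ¬ BadL (MvPolynomial.map e fR) (e αR) m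

/-- Part A6: the Ore condition. -/
def TaskA6 : Prop := TaskA1 → TaskA2 → ∀ {n : ℕ} {R : Type} [CommRing R]
  (Q : MvPolynomial (Sy n) R) (u : MvPolynomial (Fin n) R), ∃ (d : ℕ) (Q' : MvPolynomial (Sy n) R),
    ∀ (s : ℕ) (φ : MvPolynomial (Fin n) R), u ^ d * act Q s φ = act Q' s (u * φ)

/-- the local functional equation, in terms of symbols -/
def FEqL {n : ℕ} (f : MvPolynomial (Fin n) ℂ) (b : Polynomial ℂ) : Prop :=
  ∃ (u : MvPolynomial (Fin n) ℂ) (P : MvPolynomial (Sy n) ℂ), constantCoeff u = 1 ∧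
    ∀ s : ℕ, u * (C (b.eval (s : ℂ)) * f ^ s) = act P s (f ^ (s + 1))

/-- Part B1L: the Weyl algebra and the symbols. -/
def TaskB1L : Prop := TaskA1 → TaskA5 → ∀ {n : ℕ} (f : MvPolynomial (Fin n) ℂ)
  (b : Polynomial ℂ) (u : MvPolynomial (Fin n) ℂ),
  (∃ P : ℕ →₀ weylS (Fin n), ∀ s : ℕ, u * C (b.eval (s : ℂ)) * f ^ s =
    P.sum fun m Q => ((s : ℂ) ^ m) • (Q : Module.End ℂ (MvPolynomial (Fin n) ℂ)) (f ^ (s + 1))) ↔
  ∃ P : MvPolynomial (Sy n) ℂ, ∀ s : ℕ,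
    u * (C (b.eval (s : ℂ)) * f ^ s) = act P s (f ^ (s + 1))

/-- Part B2L: the roots of the local `b`-functions, special fibre. -/
def TaskB2L : Prop := TaskA1 → TaskA3 → ∀ {n : ℕ} (f : MvPolynomial (Fin n) ℂ)
  (b : Polynomial ℂ), FEqL f b → ∀ (α : ℂ) (m : ℕ), ¬ BadL f α m →
  (Polynomial.X - Polynomial.C α) ^ (m + 1) ∣ b

/-- Part B3L: the roots of the local `b`-functions, generic fibre. -/
def TaskB3L : Prop := Bernstein → TaskA6 → TaskA1 → TaskA2 → TaskA3 → TaskA4 → TaskA5 →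
  ∀ {n : ℕ} (f : MvPolynomial (Fin n) ℂ), f ≠ 0 → ∀ (α : ℂ) (m : ℕ),
  (∀ b : Polynomial ℂ, FEqL f b → (Polynomial.X - Polynomial.C α) ^ (m + 1) ∣ b) → ¬ BadL f α m

end Pool.Agent.W425.GN
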