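import Pool.Agent.W425.GN.Defs3

set_option autoImplicit false

/-! Project GN: exceptional sets defined over the field of the coefficients. -/

namespace Pool.Agent.W425.GN

open MvPolynomial Pool.Agent.H628R4.TP

/-- Part F4: the local ring of a point. -/
def TaskF4 : Prop := ∀ {F : Type} [Field F] {r : ℕ}
  (Z : Finset (FractionRing (MvPolynomial (Fin r) F))),
  ∃ g : MvPolynomial (Fin r) F, g ≠ 0 ∧ ∀ {L : Type} [Field L] [Algebra F L] (a : Fin r → L),
    aeval a g ≠ 0 →
    ∃ (R : Type) (_ : CommRing R) (ι : R →+* FractionRing (MvPolynomial (Fin r) F))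
      (j : MvPolynomial (Fin r) F →+* R) (e : R →+* L), Function.Injective ι ∧
      (∀ z ∈ Z, ∃ y, ι y = z) ∧
      (∀ p, ι (j p) = algebraMap (MvPolynomial (Fin r) F)
        (FractionRing (MvPolynomial (Fin r) F)) p) ∧
      (∀ p, e (j p) = aeval a p) ∧ ∀ y, e y ≠ 0 → IsUnit y

/-- Part R1: descent. -/
def TaskR1 : Prop := TaskA1 → TaskA3 → ∀ {κ L : Type} [Field κ] [Field L] [Algebra κ L] {n : ℕ}
  (f : MvPolynomial (Fin n) κ) (α : κ) (m : ℕ),
  (Bad (MvPolynomial.map (algebraMap κ L) f) (algebraMap κ L α) m → Bad f α m) ∧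
  (BadL (MvPolynomial.map (algebraMap κ L) f) (algebraMap κ L α) m → BadL f α m)

end Pool.Agent.W425.GN
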