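import Pool.Agent.W509.GN.A1
import Pool.Agent.W816.GN.A2
import Pool.Agent.W366.GN.A3
import Pool.Agent.W436.GN.A4
import Pool.Agent.W196.GN.A5
import Pool.Agent.W273.GN.G1
import Pool.Agent.W790.GN.S1
import Pool.Agent.W486.GN.S2
import Pool.Agent.W924.GN.B1
import Pool.Agent.W311.GN.B2
import Pool.Agent.W376.GN.B3
import Pool.Agent.W33.GN.C1
import Pool.Agent.W479.GN.C2
import Pool.Agent.W300.GN.F1
import Pool.Agent.W160.GN.F2
import Pool.Agent.W425.ND.Defs

set_option autoImplicit false

/-! Project GN: roots of Bernstein-Sato polynomials for generic coefficients. -/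

namespace Pool.Agent.W425.GN

open MvPolynomial Pool.Agent.H628R4.TP
open Pool.Agent.W425.ND (spa)

theorem pA1 : TaskA1 := Pool.Agent.W509.GN.a1
theorem pA2 : TaskA2 := Pool.Agent.W816.GN.A2.taskA2
theorem pA3 : TaskA3 := Pool.Agent.W366.GN.a3
theorem pA4 : TaskA4 := Pool.Agent.W436.GN.a4
theorem pA5 : TaskA5 := Pool.Agent.W196.GN.a5
theorem pG1 : TaskG1 := Pool.Agent.W273.GN.G1.main
theorem pSW : SpecW := Pool.Agent.W790.GN.specW pG1 pA1 pA2 pA3

theorem bfun_iff {n : ℕ} (f : MvPolynomial (Fin n) ℂ) (b : Polynomial ℂ) :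
    IsBFunction f b ↔ FEq f b := Pool.Agent.W924.GN.b1 pA1 pA5 f b

theorem Bad.map {n : ℕ} {R S : Type} [CommRing R] [CommRing S] (e : R →+* S)
    {f : MvPolynomial (Fin n) R} {α : R} {m : ℕ} (h : Bad f α m) :
    Bad (MvPolynomial.map e f) (e α) m := by
  obtain ⟨P, Q, s0, hs⟩ := h
  refine ⟨MvPolynomial.map e P, MvPolynomial.map e Q, s0, fun s hs' => ?_⟩
  have h1 := congrArg (MvPolynomial.map e) (hs s hs')
  have h3 := (pA3 (n := n) (R := R)).2.2.1 e
  rw [map_mul, map_add, map_mul, h3, h3, map_pow, map_pow, MvPolynomial.map_C,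
    MvPolynomial.map_C] at h1
  simpa using h1

/-- a copy of `ℂ` -/
def CF : Type := ℂ

noncomputable instance : Field CF := inferInstanceAs (Field ℂ)

variable {r N : ℕ}

/-- the generic polynomial -/
noncomputable def fgen (v : Fin r → Fin N → ℕ) (h : MvPolynomial (Fin N) ℂ) :
    MvPolynomial (Fin N) (MvPolynomial (Fin r) ℂ) :=
  spa v (fun j => (X j : MvPolynomial (Fin r) ℂ)) + MvPolynomial.map C h

lemma map_spa {R S : Type} [CommRing R] [CommRing S] (φ : R →+* S) (v : Fin r → Fin N → ℕ)
    (a : Fin r → R) : MvPolynomial.map φ (spa v a) = spa v (fun j => φ (a j)) := by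
  unfold spa
  simp

theorem core (hBern : Bernstein) (hr : 0 < r) (v : Fin r → Fin N → ℕ)
    (hv : Function.Injective v) (h : MvPolynomial (Fin N) ℂ)
    (α : ℚ) (m : ℕ)
    (H : ∀ (F : Type) [Field F] [Algebra F ℂ] (a : Fin r → ℂ) (h' : MvPolynomial (Fin N) F),
      AlgebraicIndependent F a → (∀ w ∈ h'.support, w ∈ h.support) → ∀ b : Polynomial ℂ,
      IsBFunction (spa v a + MvPolynomial.map (algebraMap F ℂ) h') b →
        (Polynomial.X - Polynomial.C (α : ℂ)) ^ (m + 1) ∣ b) :
    ∃ g : MvPolynomial (Fin r) ℂ, g ≠ 0 ∧ ∀ a : Fin r → ℂ, eval a g ≠ 0 → ∀ b : Polynomial ℂ,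
      IsBFunction (spa v a + h) b → (Polynomial.X - Polynomial.C (α : ℂ)) ^ (m + 1) ∣ b := by
  classical
  obtain ⟨ι0⟩ := Pool.Agent.W300.GN.f1 r
  set A := MvPolynomial (Fin r) ℂ with hA
  set K := FractionRing A with hK
  have hchar : CharZero K := RingHom.charZero ι0
  let j0 : Fin r := ⟨0, hr⟩
  set fK : MvPolynomial (Fin N) K := MvPolynomial.map (algebraMap A K) (fgen v h) with hfK
  -- nonvanishing
  set g0 : A := X j0 + C (coeff (Finsupp.equivFunOnFinite.symm (v j0)) h) with hg0
  have hcoef : ∀ {R : Type} [CommRing R] (a : Fin r → R),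
      coeff (Finsupp.equivFunOnFinite.symm (v j0)) (spa v a) = a j0 := by
    intro R _ a
    have h1 : ∀ j, C (a j) * ∏ i, X i ^ v j i =
        monomial (Finsupp.equivFunOnFinite.symm (v j)) (a j) := by
      intro j
      rw [MvPolynomial.monomial_eq, Finsupp.prod_fintype _ _ (fun _ => pow_zero _)]
      rfl
    unfold spa
    rw [coeff_sum, Finset.sum_eq_single j0]
    · rw [h1, coeff_monomial, if_pos rfl]
    · intro j _ hj
      rw [h1, coeff_monomial, if_neg]
      intro h2
      exact hj (hv (Finsupp.equivFunOnFinite.symm.injective h2))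
    · intro h2
      exact absurd (Finset.mem_univ _) h2
  have hg0ne : g0 ≠ 0 := by
    intro h1
    have h2 := congrArg (coeff (Finsupp.single j0 1)) h1
    rw [hg0, coeff_add, coeff_X, if_pos rfl, coeff_C, if_neg, coeff_zero, add_zero] at h2
    · exact one_ne_zero h2
    · intro h3
      have := congrArg (fun f => f j0) h3
      simp at this
  have hgenne : fgen v h ≠ 0 := by
    intro h1
    have h2 := congrArg (coeff (Finsupp.equivFunOnFinite.symm (v j0))) h1
    unfold fgen at h2
    rw [coeff_add, hcoef, coeff_map, coeff_zero] at h2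
    exact hg0ne h2
  have hinjA : Function.Injective (algebraMap A K) := IsFractionRing.injective A K
  have hfKne : fK ≠ 0 := by
    intro h1
    exact hgenne (MvPolynomial.map_injective _ hinjA (by rw [← hfK, h1, map_zero]))
  -- the exotic structure
  let algCF : Algebra CF ℂ := (ι0.comp (algebraMap ℂ K)).toAlgebra
  have hmapf : MvPolynomial.map ι0 fK = spa v (fun j => ι0 (algebraMap A K (X j))) +
      MvPolynomial.map (@algebraMap CF ℂ _ _ algCF) (show MvPolynomial (Fin N) CF from h) := by
    rw [hfK, fgen, map_add, map_add, map_spa, map_spa, MvPolynomial.map_map,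
      MvPolynomial.map_map]
    rfl
  have hind : @AlgebraicIndependent (Fin r) CF ℂ (fun j => ι0 (algebraMap A K (X j)))
      _ _ algCF := by
    rw [algebraicIndependent_iff_injective_aeval]
    have h1 : ∀ p : MvPolynomial (Fin r) CF,
        @aeval CF ℂ (Fin r) _ _ algCF (fun j => ι0 (algebraMap A K (X j))) p =
          ι0 (algebraMap A K (show MvPolynomial (Fin r) ℂ from p)) := by
      intro p
      induction p using MvPolynomial.induction_on with
      | C c =>
        rw [aeval_C]
        rfl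
      | add p q hp hq =>
        rw [map_add, hp, hq, ← map_add, ← map_add]
        rfl
      | mul_X p j hp =>
        rw [map_mul, hp, aeval_X, ← map_mul, ← map_mul]
        rfl
    intro p q hpq
    rw [h1, h1] at hpq
    exact hinjA (ι0.injective hpq)
  have hnb : ¬ Bad (MvPolynomial.map ι0 fK) (α : ℂ) m := by
    refine Pool.Agent.W376.GN.taskB3 hBern pA1 pA2 pA3 pA4 pA5 _ ?_ _ m fun b hb => ?_
    · intro h1
      exact hfKne (MvPolynomial.map_injective _ ι0.injective (by rw [h1, map_zero]))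
    · refine @H CF _ algCF _ (show MvPolynomial (Fin N) CF from h) hind (fun w hw => hw) b ?_
      rw [← hmapf]
      exact (bfun_iff _ b).2 hb
  have hnbK : ¬ Bad fK (α : K) m := by
    intro h1
    have h2 := h1.map ι0
    rw [map_ratCast] at h2
    exact hnb h2
  obtain ⟨Z, hZ⟩ := Pool.Agent.W486.GN.s2 pSW pG1 pA1 pA2 pA3 pA4 fK (α : K) m hnbK
  obtain ⟨g1, hg1, hg⟩ := Pool.Agent.W160.GN.taskF2 Z
  refine ⟨g1 * g0, mul_ne_zero hg1 hg0ne, fun a ha b hb => ?_⟩
  rw [map_mul] at ha
  obtain ⟨R, _, ι, j, e, hι, hZR, hιj, hej⟩ := hg a (left_ne_zero_of_mul ha)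
  have he : Function.Surjective e := fun c => ⟨j (C c), by rw [hej, eval_C]⟩
  have hfa : MvPolynomial.map e (MvPolynomial.map j (fgen v h)) = spa v a + h := by
    rw [MvPolynomial.map_map, fgen, map_add, map_spa, MvPolynomial.map_map]
    congr 1
    · congr 1
      funext l
      rw [RingHom.comp_apply, hej, eval_X]
    · have h1 : (e.comp j).comp (C : ℂ →+* A) = RingHom.id ℂ := by
        ext c
        · simp [hej]
      rw [h1, MvPolynomial.map_id]
  have hne : spa v a + h ≠ 0 := by
    intro h1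
    have h2 := congrArg (coeff (Finsupp.equivFunOnFinite.symm (v j0))) h1
    rw [coeff_add, hcoef, coeff_zero] at h2
    apply right_ne_zero_of_mul ha
    rw [hg0, map_add, eval_X, eval_C]
    exact h2
  have h5 := hZ ι hι hZR (MvPolynomial.map j (fgen v h)) (by
    rw [hfK, MvPolynomial.map_map]
    congr 2
    exact RingHom.ext fun x => hιj x) (j (C (α : ℂ))) (by
      rw [hιj]
      have h1 : algebraMap A K (C (α : ℂ)) = algebraMap ℂ K (α : ℂ) := rfl
      rw [h1, map_ratCast]) e he (by rw [hfa]; exact hne)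
  rw [hfa, hej, eval_C] at h5
  exact Pool.Agent.W311.GN.b2 pA1 pA3 _ b ((bfun_iff _ b).1 hb) (α : ℂ) m h5

end Pool.Agent.W425.GN
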