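import Pool.Agent.W425.GN.Fin
import Pool.Agent.W425.GN.Defs4
import Pool.Agent.W736.GN.B3L
import Pool.Agent.W168.GN.B2L
import Pool.Agent.W193.GN.B1L
import Pool.Agent.W701.GN.S2L
import Pool.Agent.W881.GN.W1

set_option autoImplicit false

/-! Project GN: roots of Bernstein-Sato polynomials for generic coefficients, exceptional sets
defined over the field of the other coefficients. -/

namespace Pool.Agent.W425.GN

open MvPolynomial Pool.Agent.H628R4.TP
open Pool.Agent.W425.ND (spa)

/-- a copy of `F` -/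
def Cp (F : Type) : Type := F

noncomputable instance (F : Type) [h : Field F] : Field (Cp F) := h

variable {r N : ℕ}

/-- the generic polynomial -/
noncomputable def fgenF {F : Type} [Field F] (v : Fin r → Fin N → ℕ)
    (h : MvPolynomial (Fin N) F) : MvPolynomial (Fin N) (MvPolynomial (Fin r) F) :=
  spa v (fun j => (X j : MvPolynomial (Fin r) F)) + MvPolynomial.map C h

theorem BadL.map {n : ℕ} {R S : Type} [CommRing R] [CommRing S] (e : R →+* S)
    {f : MvPolynomial (Fin n) R} {α : R} {m : ℕ} (h : BadL f α m) :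
    BadL (MvPolynomial.map e f) (e α) m := by
  obtain ⟨u, P, Q, s0, hu, hs⟩ := h
  refine ⟨MvPolynomial.map e u, MvPolynomial.map e P, MvPolynomial.map e Q, s0, ?_,
    fun s hs' => ?_⟩
  · rw [constantCoeff_map, hu, map_one]
  · have h1 := congrArg (MvPolynomial.map e) (hs s hs')
    have h3 := (pA3 (n := n) (R := R)).2.2.1 e
    rw [map_mul, map_mul, map_add, map_mul, h3, h3, map_pow, map_pow, MvPolynomial.map_C,
      MvPolynomial.map_C] at h1
    simpa using h1

lemma coef_spa (v : Fin r → Fin N → ℕ) (hv : Function.Injective v) {j0 : Fin r}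
    {R : Type} [CommRing R] (a : Fin r → R) :
    coeff (Finsupp.equivFunOnFinite.symm (v j0)) (spa v a) = a j0 := by
  classical
  have h1 : ∀ j, C (a j) * ∏ i, X i ^ v j i =
      monomial (Finsupp.equivFunOnFinite.symm (v j)) (a j) := by
    intro j
    rw [MvPolynomial.monomial_eq, Finsupp.prod_fintype _ _ (fun _ => pow_zero _)]
    rfl
  unfold spa
  rw [coeff_sum, Finset.sum_eq_single j0]
  · rw [h1, coeff_monomial, if_pos rfl]
  · intro j _ hj
    rw [h1, coeff_monomial, if_neg]
    intro h2
    exact hj (hv (Finsupp.equivFunOnFinite.symm.injective h2))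
  · intro h2
    exact absurd (Finset.mem_univ _) h2

theorem emb {F : Type} [Field F] [Algebra F ℂ] (r : ℕ) :
    Nonempty (FractionRing (MvPolynomial (Fin r) F) →+* ℂ) := by
  obtain ⟨ι⟩ := Pool.Agent.W300.GN.f1 r
  have hinj : Function.Injective (((algebraMap (MvPolynomial (Fin r) ℂ)
      (FractionRing (MvPolynomial (Fin r) ℂ)))).comp
      (MvPolynomial.map (algebraMap F ℂ) : MvPolynomial (Fin r) F →+* _)) := by
    rw [RingHom.coe_comp]
    exact (IsFractionRing.injective _ _).comp
      (MvPolynomial.map_injective _ (algebraMap F ℂ).injective)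
  exact ⟨ι.comp (IsFractionRing.lift hinj)⟩

theorem coreF (hBern : Bernstein) (hF4 : TaskF4) (hR1 : TaskR1) {F : Type} [Field F] [Algebra F ℂ]
    (hr : 0 < r) (v : Fin r → Fin N → ℕ)
    (hv : Function.Injective v) (h : MvPolynomial (Fin N) F)
    (α : ℚ) (m : ℕ)
    (H : ∀ (F' : Type) [Field F'] [Algebra F' ℂ] (a : Fin r → ℂ) (h' : MvPolynomial (Fin N) F'),
      AlgebraicIndependent F' a → (∀ w ∈ h'.support, w ∈ h.support) → ∀ b : Polynomial ℂ,
      FEq (spa v a + MvPolynomial.map (algebraMap F' ℂ) h') b →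
        (Polynomial.X - Polynomial.C (α : ℂ)) ^ (m + 1) ∣ b) :
    ∃ g : MvPolynomial (Fin r) F, g ≠ 0 ∧ ∀ a : Fin r → ℂ, aeval a g ≠ 0 → ∀ b : Polynomial ℂ,
      FEq (spa v a + MvPolynomial.map (algebraMap F ℂ) h) b →
        (Polynomial.X - Polynomial.C (α : ℂ)) ^ (m + 1) ∣ b := by
  classical
  have hcF : CharZero F := RingHom.charZero (algebraMap F ℂ)
  obtain ⟨ι0⟩ := emb (F := F) r
  set A := MvPolynomial (Fin r) F with hA
  set K := FractionRing A with hK
  have hchar : CharZero K := RingHom.charZero ι0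
  let j0 : Fin r := ⟨0, hr⟩
  set fK : MvPolynomial (Fin N) K := MvPolynomial.map (algebraMap A K) (fgenF v h) with hfK
  -- nonvanishing
  set g0 : A := X j0 + C (coeff (Finsupp.equivFunOnFinite.symm (v j0)) h) with hg0
  have hg0ne : g0 ≠ 0 := by
    intro h1
    have h2 := congrArg (coeff (Finsupp.single j0 1)) h1
    rw [hg0, coeff_add, coeff_X, if_pos rfl, coeff_C, if_neg, coeff_zero, add_zero] at h2
    · exact one_ne_zero h2
    · intro h3
      have := congrArg (fun f => f j0) h3
      simp at this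
  have hgenne : fgenF v h ≠ 0 := by
    intro h1
    have h2 := congrArg (coeff (Finsupp.equivFunOnFinite.symm (v j0))) h1
    unfold fgenF at h2
    rw [coeff_add, coef_spa v hv, coeff_map, coeff_zero] at h2
    exact hg0ne h2
  have hinjA : Function.Injective (algebraMap A K) := IsFractionRing.injective A K
  have hfKne : fK ≠ 0 := by
    intro h1
    exact hgenne (MvPolynomial.map_injective _ hinjA (by rw [← hfK, h1, map_zero]))
  -- the exotic structure
  let algCF : Algebra (Cp F) ℂ := (ι0.comp (algebraMap F K)).toAlgebra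
  have hmapf : MvPolynomial.map ι0 fK = spa v (fun j => ι0 (algebraMap A K (X j))) +
      MvPolynomial.map (@algebraMap (Cp F) ℂ _ _ algCF)
        (show MvPolynomial (Fin N) (Cp F) from h) := by
    rw [hfK, fgenF, map_add, map_add, map_spa, map_spa, MvPolynomial.map_map,
      MvPolynomial.map_map]
    rfl
  have hind : @AlgebraicIndependent (Fin r) (Cp F) ℂ (fun j => ι0 (algebraMap A K (X j)))
      _ _ algCF := by
    rw [algebraicIndependent_iff_injective_aeval]
    have h1 : ∀ p : MvPolynomial (Fin r) (Cp F),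
        @aeval (Cp F) ℂ (Fin r) _ _ algCF (fun j => ι0 (algebraMap A K (X j))) p =
          ι0 (algebraMap A K (show MvPolynomial (Fin r) F from p)) := by
      intro p
      induction p using MvPolynomial.induction_on with
      | C c =>
        rw [aeval_C]
        rfl
      | add p q hp hq =>
        rw [map_add, hp, hq, ← map_add, ← map_add]
        rfl
      | mul_X p j hp =>
        rw [map_mul, hp, aeval_X, ← map_mul, ← map_mul]
        rfl
    intro p q hpq
    rw [h1, h1] at hpq
    exact hinjA (ι0.injective hpq)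
  have hnb : ¬ Bad (MvPolynomial.map ι0 fK) (α : ℂ) m := by
    refine Pool.Agent.W376.GN.taskB3 hBern pA1 pA2 pA3 pA4 pA5 _ ?_ _ m fun b hb => ?_
    · intro h1
      exact hfKne (MvPolynomial.map_injective _ ι0.injective (by rw [h1, map_zero]))
    · refine @H (Cp F) _ algCF _ (show MvPolynomial (Fin N) (Cp F) from h) hind
        (fun w hw => hw) b ?_
      rw [← hmapf]
      exact hb
  have hnbK : ¬ Bad fK (α : K) m := by
    intro h1
    have h2 := h1.map ι0
    rw [map_ratCast] at h2
    exact hnb h2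
  obtain ⟨Z, hZ⟩ := Pool.Agent.W486.GN.s2 pSW pG1 pA1 pA2 pA3 pA4 fK (α : K) m hnbK
  obtain ⟨g1, hg1, hg⟩ := hF4 Z
  refine ⟨g1 * g0, mul_ne_zero hg1 hg0ne, fun a ha b hb => ?_⟩
  rw [map_mul] at ha
  obtain ⟨R, _, ι, j, e, hι, hZR, hιj, hej, hun⟩ := hg a (left_ne_zero_of_mul ha)
  -- the residue field
  let κ : Subfield ℂ := { e.range with
    inv_mem' := by
      rintro x ⟨y, rfl⟩
      by_cases h0 : e y = 0
      · rw [h0, inv_zero]
        exact ⟨0, map_zero e⟩
      · obtain ⟨y', hy'⟩ := (hun y h0).exists_right_inv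
        exact ⟨y', by
          have h1 := congrArg e hy'
          rw [map_mul, map_one] at h1
          exact eq_inv_of_mul_eq_one_right h1⟩ }
  let e' : R →+* κ := e.codRestrict κ fun y => ⟨y, rfl⟩
  have he' : Function.Surjective e' := by
    rintro ⟨x, y, hy⟩
    exact ⟨y, Subtype.ext hy⟩
  have hee : (algebraMap κ ℂ).comp e' = e := RingHom.ext fun y => rfl
  have hfa : MvPolynomial.map (algebraMap κ ℂ) (MvPolynomial.map e'
      (MvPolynomial.map j (fgenF v h))) =
      spa v a + MvPolynomial.map (algebraMap F ℂ) h := by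
    rw [MvPolynomial.map_map, MvPolynomial.map_map, hee, fgenF, map_add,
      map_spa, MvPolynomial.map_map]
    congr 1
    · congr 1
      funext l
      rw [RingHom.comp_apply, hej, aeval_X]
    · congr 2
      refine RingHom.ext fun c => ?_
      rw [RingHom.comp_apply, RingHom.comp_apply, hej]
      exact algHom_C _ c
  have hne : spa v a + MvPolynomial.map (algebraMap F ℂ) h ≠ 0 := by
    intro h1
    have h2 := congrArg (coeff (Finsupp.equivFunOnFinite.symm (v j0))) h1
    rw [coeff_add, coef_spa v hv, coeff_zero, coeff_map] at h2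
    apply right_ne_zero_of_mul ha
    rw [hg0, map_add, aeval_X]
    refine Eq.trans ?_ h2
    congr 1
    exact algHom_C _ _
  have hαe : algebraMap κ ℂ (e' (j (C ((α : ℚ) : F)))) = (α : ℂ) := by
    have h1 : algebraMap κ ℂ (e' (j (C ((α : ℚ) : F)))) = e (j (C ((α : ℚ) : F))) := rfl
    rw [h1, hej]
    have h2 : aeval a (C ((α : ℚ) : F) : MvPolynomial (Fin r) F) =
        algebraMap F ℂ ((α : ℚ) : F) := algHom_C _ _
    rw [h2, map_ratCast]
  have h5 := hZ ι hι hZR (MvPolynomial.map j (fgenF v h)) (by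
    rw [hfK, MvPolynomial.map_map]
    congr 2
    exact RingHom.ext fun x => hιj x) (j (C ((α : ℚ) : F))) (by
      rw [hιj]
      have h1 : algebraMap A K (C ((α : ℚ) : F)) = algebraMap F K ((α : ℚ) : F) := rfl
      rw [h1, map_ratCast]) e' he' (by
        intro h1
        apply hne
        rw [← hfa, h1, map_zero])
  have h6 : ¬ Bad (spa v a + MvPolynomial.map (algebraMap F ℂ) h) (α : ℂ) m := by
    intro h7
    rw [← hfa, ← hαe] at h7
    exact h5 ((hR1 pA1 pA3 _ _ m).1 h7)
  exact Pool.Agent.W311.GN.b2 pA1 pA3 _ b hb (α : ℂ) m h6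

theorem coreFL (hBern : Bernstein) (hA6 : TaskA6) (hF4 : TaskF4) (hR1 : TaskR1) (hG2 : TaskG2) {F : Type} [Field F] [Algebra F ℂ]
    (hr : 0 < r) (v : Fin r → Fin N → ℕ)
    (hv : Function.Injective v) (h : MvPolynomial (Fin N) F)
    (α : ℚ) (m : ℕ)
    (H : ∀ (F' : Type) [Field F'] [Algebra F' ℂ] (a : Fin r → ℂ) (h' : MvPolynomial (Fin N) F'),
      AlgebraicIndependent F' a → (∀ w ∈ h'.support, w ∈ h.support) → ∀ b : Polynomial ℂ,
      FEqL (spa v a + MvPolynomial.map (algebraMap F' ℂ) h') b →
        (Polynomial.X - Polynomial.C (α : ℂ)) ^ (m + 1) ∣ b) :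
    ∃ g : MvPolynomial (Fin r) F, g ≠ 0 ∧ ∀ a : Fin r → ℂ, aeval a g ≠ 0 → ∀ b : Polynomial ℂ,
      FEqL (spa v a + MvPolynomial.map (algebraMap F ℂ) h) b →
        (Polynomial.X - Polynomial.C (α : ℂ)) ^ (m + 1) ∣ b := by
  classical
  have hcF : CharZero F := RingHom.charZero (algebraMap F ℂ)
  obtain ⟨ι0⟩ := emb (F := F) r
  set A := MvPolynomial (Fin r) F with hA
  set K := FractionRing A with hK
  have hchar : CharZero K := RingHom.charZero ι0
  let j0 : Fin r := ⟨0, hr⟩
  set fK : MvPolynomial (Fin N) K := MvPolynomial.map (algebraMap A K) (fgenF v h) with hfK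
  -- nonvanishing
  set g0 : A := X j0 + C (coeff (Finsupp.equivFunOnFinite.symm (v j0)) h) with hg0
  have hg0ne : g0 ≠ 0 := by
    intro h1
    have h2 := congrArg (coeff (Finsupp.single j0 1)) h1
    rw [hg0, coeff_add, coeff_X, if_pos rfl, coeff_C, if_neg, coeff_zero, add_zero] at h2
    · exact one_ne_zero h2
    · intro h3
      have := congrArg (fun f => f j0) h3
      simp at this
  have hgenne : fgenF v h ≠ 0 := by
    intro h1
    have h2 := congrArg (coeff (Finsupp.equivFunOnFinite.symm (v j0))) h1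
    unfold fgenF at h2
    rw [coeff_add, coef_spa v hv, coeff_map, coeff_zero] at h2
    exact hg0ne h2
  have hinjA : Function.Injective (algebraMap A K) := IsFractionRing.injective A K
  have hfKne : fK ≠ 0 := by
    intro h1
    exact hgenne (MvPolynomial.map_injective _ hinjA (by rw [← hfK, h1, map_zero]))
  -- the exotic structure
  let algCF : Algebra (Cp F) ℂ := (ι0.comp (algebraMap F K)).toAlgebra
  have hmapf : MvPolynomial.map ι0 fK = spa v (fun j => ι0 (algebraMap A K (X j))) +
      MvPolynomial.map (@algebraMap (Cp F) ℂ _ _ algCF)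
        (show MvPolynomial (Fin N) (Cp F) from h) := by
    rw [hfK, fgenF, map_add, map_add, map_spa, map_spa, MvPolynomial.map_map,
      MvPolynomial.map_map]
    rfl
  have hind : @AlgebraicIndependent (Fin r) (Cp F) ℂ (fun j => ι0 (algebraMap A K (X j)))
      _ _ algCF := by
    rw [algebraicIndependent_iff_injective_aeval]
    have h1 : ∀ p : MvPolynomial (Fin r) (Cp F),
        @aeval (Cp F) ℂ (Fin r) _ _ algCF (fun j => ι0 (algebraMap A K (X j))) p =
          ι0 (algebraMap A K (show MvPolynomial (Fin r) F from p)) := by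
      intro p
      induction p using MvPolynomial.induction_on with
      | C c =>
        rw [aeval_C]
        rfl
      | add p q hp hq =>
        rw [map_add, hp, hq, ← map_add, ← map_add]
        rfl
      | mul_X p j hp =>
        rw [map_mul, hp, aeval_X, ← map_mul, ← map_mul]
        rfl
    intro p q hpq
    rw [h1, h1] at hpq
    exact hinjA (ι0.injective hpq)
  have hnb : ¬ BadL (MvPolynomial.map ι0 fK) (α : ℂ) m := by
    refine Pool.Agent.W736.GN.taskB3L hBern hA6 pA1 pA2 pA3 pA4 pA5 _ ?_ _ m fun b hb => ?_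
    · intro h1
      exact hfKne (MvPolynomial.map_injective _ ι0.injective (by rw [h1, map_zero]))
    · refine @H (Cp F) _ algCF _ (show MvPolynomial (Fin N) (Cp F) from h) hind
        (fun w hw => hw) b ?_
      rw [← hmapf]
      exact hb
  have hnbK : ¬ BadL fK (α : K) m := by
    intro h1
    have h2 := h1.map ι0
    rw [map_ratCast] at h2
    exact hnb h2
  obtain ⟨Z, hZ⟩ := Pool.Agent.W701.GN.s2L pSW Pool.Agent.W881.GN.w1 hG2 pA1 pA2 pA3 pA4 fK (α : K) m hnbK
  obtain ⟨g1, hg1, hg⟩ := hF4 Z
  refine ⟨g1 * g0, mul_ne_zero hg1 hg0ne, fun a ha b hb => ?_⟩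
  rw [map_mul] at ha
  obtain ⟨R, _, ι, j, e, hι, hZR, hιj, hej, hun⟩ := hg a (left_ne_zero_of_mul ha)
  -- the residue field
  let κ : Subfield ℂ := { e.range with
    inv_mem' := by
      rintro x ⟨y, rfl⟩
      by_cases h0 : e y = 0
      · rw [h0, inv_zero]
        exact ⟨0, map_zero e⟩
      · obtain ⟨y', hy'⟩ := (hun y h0).exists_right_inv
        exact ⟨y', by
          have h1 := congrArg e hy'
          rw [map_mul, map_one] at h1
          exact eq_inv_of_mul_eq_one_right h1⟩ }
  let e' : R →+* κ := e.codRestrict κ fun y => ⟨y, rfl⟩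
  have he' : Function.Surjective e' := by
    rintro ⟨x, y, hy⟩
    exact ⟨y, Subtype.ext hy⟩
  have hee : (algebraMap κ ℂ).comp e' = e := RingHom.ext fun y => rfl
  have hfa : MvPolynomial.map (algebraMap κ ℂ) (MvPolynomial.map e'
      (MvPolynomial.map j (fgenF v h))) =
      spa v a + MvPolynomial.map (algebraMap F ℂ) h := by
    rw [MvPolynomial.map_map, MvPolynomial.map_map, hee, fgenF, map_add,
      map_spa, MvPolynomial.map_map]
    congr 1
    · congr 1
      funext l
      rw [RingHom.comp_apply, hej, aeval_X]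
    · congr 2
      refine RingHom.ext fun c => ?_
      rw [RingHom.comp_apply, RingHom.comp_apply, hej]
      exact algHom_C _ c
  have hne : spa v a + MvPolynomial.map (algebraMap F ℂ) h ≠ 0 := by
    intro h1
    have h2 := congrArg (coeff (Finsupp.equivFunOnFinite.symm (v j0))) h1
    rw [coeff_add, coef_spa v hv, coeff_zero, coeff_map] at h2
    apply right_ne_zero_of_mul ha
    rw [hg0, map_add, aeval_X]
    refine Eq.trans ?_ h2
    congr 1
    exact algHom_C _ _
  have hαe : algebraMap κ ℂ (e' (j (C ((α : ℚ) : F)))) = (α : ℂ) := by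
    have h1 : algebraMap κ ℂ (e' (j (C ((α : ℚ) : F)))) = e (j (C ((α : ℚ) : F))) := rfl
    rw [h1, hej]
    have h2 : aeval a (C ((α : ℚ) : F) : MvPolynomial (Fin r) F) =
        algebraMap F ℂ ((α : ℚ) : F) := algHom_C _ _
    rw [h2, map_ratCast]
  have h5 := hZ ι hι hZR (MvPolynomial.map j (fgenF v h)) (by
    rw [hfK, MvPolynomial.map_map]
    congr 2
    exact RingHom.ext fun x => hιj x) (j (C ((α : ℚ) : F))) (by
      rw [hιj]
      have h1 : algebraMap A K (C ((α : ℚ) : F)) = algebraMap F K ((α : ℚ) : F) := rfl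
      rw [h1, map_ratCast]) e' he' (by
        intro h1
        apply hne
        rw [← hfa, h1, map_zero])
  have h6 : ¬ BadL (spa v a + MvPolynomial.map (algebraMap F ℂ) h) (α : ℂ) m := by
    intro h7
    rw [← hfa, ← hαe] at h7
    exact h5 ((hR1 pA1 pA3 _ _ m).2 h7)
  exact Pool.Agent.W168.GN.b2l pA1 pA3 _ b hb (α : ℂ) m h6

end Pool.Agent.W425.GN
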