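import Pool.Agent.W425.GN.Fin
import Pool.Agent.W683.GN.F3
import Pool.Agent.W425.MM.Strong
import Pool.Agent.W585.MM.RAY
import Pool.Agent.W692.MM.GN2
import Pool.Agent.W790.MM.GN1
import Pool.Agent.W425.PN.Fin
import Pool.Agent.W425.MM.StrongE

set_option autoImplicit false

/-! Project GN: generic coefficients, all candidate poles. -/

namespace Pool.Agent.W425.GN

open MvPolynomial Pool.Agent.H628R4.TP Pool.Agent.W425.MM
open Pool.Agent.W425.ND (spa)
open Pool.Agent.W426.SM (gord IsRay face)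

variable {r N : ℕ}

theorem pGN2 : TaskGN2 := Pool.Agent.W692.MM.gn2 Pool.Agent.W790.MM.taskGN1
theorem pRAY : TaskRAY := Pool.Agent.W585.MM.RAY.ray

/-- There are finitely many candidate poles. -/
theorem fin_cand (v : Fin r → Fin N → ℕ) :
    {α : ℚ | ∃ a : Fin N → ℕ, IsRay v a ∧ 0 < gord v a ∧
      α = -(((∑ i, a i : ℕ) : ℚ) / gord v a)}.Finite := by
  classical
  let Φ : (Fin N → ℕ) → Finset (Fin N) × Finset (Fin r) := fun a =>
    (Finset.univ.filter fun i => a i = 0, Finset.univ.filter fun j => face v a j)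
  have key : ∀ a a' : Fin N → ℕ, IsRay v a → 0 < gord v a → 0 < gord v a' → Φ a = Φ a' →
      ((∑ i, a i : ℕ) : ℚ) / gord v a = ((∑ i, a' i : ℕ) : ℚ) / gord v a' := by
    intro a a' ha hg hg' hΦ
    have h1 : ∀ i, a i = 0 → a' i = 0 := by
      intro i hi
      have h2 : i ∈ (Φ a).1 := Finset.mem_filter.2 ⟨Finset.mem_univ _, hi⟩
      rw [hΦ] at h2
      exact (Finset.mem_filter.1 h2).2
    have hf : ∀ j, face v a j → face v a' j := by
      intro j hj
      have h2 : j ∈ (Φ a).2 := Finset.mem_filter.2 ⟨Finset.mem_univ _, hj⟩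
      rw [hΦ] at h2
      exact (Finset.mem_filter.1 h2).2
    have hr0 : Nonempty (Fin r) := by
      by_contra h
      rw [not_nonempty_iff] at h
      have : gord v a = 0 := by
        unfold gord
        exact Nat.iInf_of_empty _
      omega
    obtain ⟨j0, hj0⟩ : ∃ j0, face v a j0 :=
      Nat.sInf_mem (Set.range_nonempty fun j : Fin r => ∑ i, a i * v j i)
    obtain ⟨ρ, hρ⟩ := ha.2 (fun i => (a' i : ℚ)) (fun i hi => by rw [h1 i hi, Nat.cast_zero])
      (fun j j' hj hj' => by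
        have e1 : ((∑ i, a' i * v j i : ℕ) : ℚ) = ((∑ i, a' i * v j' i : ℕ) : ℚ) := by
          rw [hf j hj, hf j' hj']
        push_cast at e1
        exact e1)
    have hs : ((∑ i, a' i : ℕ) : ℚ) = ρ * ((∑ i, a i : ℕ) : ℚ) := by
      push_cast
      rw [Finset.mul_sum]
      exact Finset.sum_congr rfl fun i _ => hρ i
    have hN : (gord v a' : ℚ) = ρ * (gord v a : ℚ) := by
      have e1 : ((∑ i, a' i * v j0 i : ℕ) : ℚ) = (gord v a' : ℚ) := by rw [hf j0 hj0]
      have e2 : ((∑ i, a i * v j0 i : ℕ) : ℚ) = (gord v a : ℚ) := by rw [hj0]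
      rw [← e1, ← e2]
      push_cast
      rw [Finset.mul_sum]
      refine Finset.sum_congr rfl fun i _ => ?_
      rw [hρ i]
      ring
    have hρ0 : ρ ≠ 0 := by
      rintro rfl
      rw [zero_mul] at hN
      have : gord v a' = 0 := by exact_mod_cast hN
      omega
    rw [hs, hN, mul_div_mul_left _ _ hρ0]
  let Ψ : Finset (Fin N) × Finset (Fin r) → ℚ := fun q =>
    if h : ∃ a : Fin N → ℕ, IsRay v a ∧ 0 < gord v a ∧ Φ a = q then
      -(((∑ i, h.choose i : ℕ) : ℚ) / gord v h.choose) else 0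
  refine (Set.finite_range Ψ).subset ?_
  rintro α ⟨a, ha, hg, rfl⟩
  refine ⟨Φ a, ?_⟩
  have h : ∃ a' : Fin N → ℕ, IsRay v a' ∧ 0 < gord v a' ∧ Φ a' = Φ a := ⟨a, ha, hg, rfl⟩
  show (if h : _ then _ else _) = _
  rw [dif_pos h]
  obtain ⟨h1, h2, h3⟩ := h.choose_spec
  rw [key _ _ h1 h2 hg h3]

/-- extension of the field -/
theorem nonD_ext {k L : Type} [Field k] [Algebra k ℂ] [Field L] [Algebra k L]
    (m : Fin r → Fin N → ℕ) (c : Fin r → k) (h : NonD m (fun j => algebraMap k ℂ (c j))) :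
    NonD m (fun j => algebraMap k L (c j)) := by
  classical
  intro u z hz h0
  obtain ⟨M, B0, B, hid⟩ := Pool.Agent.W425.PN.idn_of m c h u
  by_contra hcon
  push Not at hcon
  have h1 := congrArg (aeval z) hid
  have e0 : aeval z (∑ j ∈ (Finset.univ.filter fun j => ∑ i, u i * m j i = gord m u),
      C (c j) * ∏ i, X i ^ m j i) = 0 := by
    rw [map_sum, Finset.sum_filter]
    refine Eq.trans (Finset.sum_congr rfl fun j _ => ?_) h0
    by_cases hj : ∑ i, u i * m j i = gord m u
    · rw [if_pos hj, if_pos (show face m u j from hj)]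
      simp
    · have hfj : ¬ face m u j := hj
      simp only [if_neg hj, if_neg hfj]
  have ei : ∀ i, aeval z (∑ j ∈ (Finset.univ.filter fun j => ∑ i, u i * m j i = gord m u),
      C (c j * (m j i : k)) * ∏ i', X i' ^ m j i') = 0 := by
    intro i
    rw [map_sum, Finset.sum_filter]
    refine Eq.trans (Finset.sum_congr rfl fun j _ => ?_) (hcon i)
    by_cases hj : ∑ i, u i * m j i = gord m u
    · rw [if_pos hj, if_pos (show face m u j from hj)]
      simp [mul_assoc]
    · have hfj : ¬ face m u j := hj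
      simp only [if_neg hj, if_neg hfj]
  rw [map_add, map_mul, e0, mul_zero, zero_add, map_sum, Finset.sum_eq_zero, map_pow,
    map_prod] at h1
  · simp only [aeval_X] at h1
    exact pow_ne_zero M (Finset.prod_ne_zero_iff.2 fun i _ => hz i) h1
  · intro i _
    rw [map_mul, ei i, mul_zero]

lemma exists_g {ι : Type*} (s : Finset ι) (P : ι → (Fin r → ℂ) → Prop)
    (h : ∀ i ∈ s, ∃ g : MvPolynomial (Fin r) ℂ, g ≠ 0 ∧ ∀ a, eval a g ≠ 0 → P i a) :
    ∃ g : MvPolynomial (Fin r) ℂ, g ≠ 0 ∧ ∀ a, eval a g ≠ 0 → ∀ i ∈ s, P i a := by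
  classical
  choose! g hg hP using h
  refine ⟨∏ i ∈ s, g i, Finset.prod_ne_zero_iff.2 hg, fun a ha i hi => hP i hi a ?_⟩
  rw [map_prod, Finset.prod_ne_zero_iff] at ha
  exact ha i hi

/-- **All candidate poles are roots, for generic coefficients.** -/
theorem gen_roots (hBern : Bernstein) (hr : 0 < r) (v : Fin r → Fin N → ℕ)
    (hv : Function.Injective v) (hv0 : ∀ j, v j ≠ 0) (h : MvPolynomial (Fin N) ℂ)
    (hh : ∀ w ∈ h.support, Pool.Agent.W425.SV.NP v w) (hB : NoB1s v False) :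
    ∃ g : MvPolynomial (Fin r) ℂ, g ≠ 0 ∧ ∀ c : Fin r → ℂ, eval c g ≠ 0 →
      ∀ b : Polynomial ℂ, IsBFunction (spa v c + h) b → b.eval (-1) = 0 ∧
        ∀ a : Fin N → ℕ, IsRay v a → 0 < gord v a →
          b.eval (-(((∑ i, a i : ℕ) : ℂ) / gord v a)) = 0 := by
  classical
  have hne : NeZero r := ⟨by omega⟩
  have hfin := fin_cand v
  obtain ⟨g1, hg1, h1⟩ := exists_g (insert (-1 : ℚ) hfin.toFinset) (fun α c =>
    ∀ b : Polynomial ℂ, IsBFunction (spa v c + h) b → b.eval (α : ℂ) = 0) (fun α hα => by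
      obtain ⟨g, hg, hgb⟩ := core hBern hr v hv h α 0 (fun F _ _ a h' ha hs b hb => by
        have hb' := (Pool.Agent.W591.GC.J_bot _ b).2 hb
        have hbot : ∀ g ∈ (⊥ : Submonoid (MvPolynomial (Fin N) ℂ)),
            MvPolynomial.constantCoeff g = 1 ∧ (¬ False → g = 1) := fun g hg => by
          rw [Submonoid.mem_bot] at hg
          exact ⟨by rw [hg, map_one], fun _ => hg⟩
        have hh' : ∀ w ∈ h'.support, Pool.Agent.W425.SV.NP v w := fun w hw => hh w (hs w hw)
        rw [zero_add, pow_one, Polynomial.dvd_iff_isRoot]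
        rcases Finset.mem_insert.1 hα with rfl | hα
        · have h2 := (root_strong False ⊥ hbot v a hv hv0 ha h' hh' b hb').1
          show b.eval _ = 0
          push_cast
          exact h2
        · rw [Set.Finite.mem_toFinset] at hα
          obtain ⟨u, hu, hgu, rfl⟩ := hα
          have h2 := cand_strong False ⊥ hbot v a hv hv0 ha h' hh' b hb' hB u hu hgu
          show b.eval _ = 0
          rw [← h2]
          congr 1
          push_cast
          ring)
      refine ⟨g, hg, fun c hc b hb => ?_⟩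
      have h2 := hgb c hc b hb
      rw [zero_add, pow_one, Polynomial.dvd_iff_isRoot] at h2
      exact h2)
  refine ⟨g1, hg1, fun c hc b hb => ⟨?_, fun a ha hg => ?_⟩⟩
  · have h3 := h1 c hc (-1) (Finset.mem_insert_self _ _) b hb
    push_cast at h3
    exact h3
  · have h3 := h1 c hc (-(((∑ i, a i : ℕ) : ℚ) / gord v a))
      (Finset.mem_insert_of_mem ((Set.Finite.mem_toFinset _).2 ⟨a, ha, hg, rfl⟩)) b hb
    push_cast at h3 ⊢
    exact h3

/-- generic nondegeneracy -/
theorem gen_nonD (hr : 0 < r) (v : Fin r → Fin N → ℕ) {q : ℕ} (w : Fin q → Fin N → ℕ)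
    (hw : ∀ l, Pool.Agent.W425.SV.NP v (Finsupp.equivFunOnFinite.symm (w l))) (h : Fin q → ℂ) :
    ∃ g : MvPolynomial (Fin r) ℂ, g ≠ 0 ∧ ∀ c : Fin r → ℂ, eval c g ≠ 0 →
      NonD (Fin.append v w) (Fin.append c h) :=
  Pool.Agent.W683.GN.f3 pGN2 (Pool.Agent.W160.GN.taskF2) v w h hr hw

lemma supp_np {F : Type} [Field F] [Algebra F ℂ] (v : Fin r → Fin N → ℕ)
    (h : MvPolynomial (Fin N) F) (hh : ∀ w ∈ h.support, Pool.Agent.W425.SV.NP v w) :
    ∀ w ∈ (MvPolynomial.map (algebraMap F ℂ) h).support, Pool.Agent.W425.SV.NP v w :=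
  fun w hw => hh w (MvPolynomial.support_map_subset _ _ hw)

lemma append_map {A B : Type} {q : ℕ} (φ : A → B) (c : Fin r → A) (d : Fin q → A) :
    (fun j => φ (Fin.append c d j)) = Fin.append (fun j => φ (c j)) (fun l => φ (d l)) := by
  funext j
  refine Fin.addCases (fun j => ?_) (fun l => ?_) j
  · rw [Fin.append_left, Fin.append_left]
  · rw [Fin.append_right, Fin.append_right]

open Pool.Agent.W428.MOT (Pt Constr ratRing sp LuMu InRat zetaE)
open Pool.Agent.W375.MG (zetaG Good)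

/-- **The strong form for generic coefficients.** -/
theorem gen_mot (hBern : Bernstein) {F : Type} [Field F] [Algebra F ℂ] (hr : 0 < r)
    (v : Fin r → Fin N → ℕ) (hv : Function.Injective v) (hv0 : ∀ j, v j ≠ 0)
    (h : MvPolynomial (Fin N) F) (hh : ∀ w ∈ h.support, Pool.Agent.W425.SV.NP v w)
    (hB : NoB1s v False) :
    ∃ g : MvPolynomial (Fin r) ℂ, g ≠ 0 ∧ ∀ (k : Type) [Field k] [Algebra F k] [Algebra k ℂ]
      [IsScalarTower F k ℂ] (c : Fin r → k), eval (fun j => algebraMap k ℂ (c j)) g ≠ 0 →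
      ∃ S : Finset (ℤ × ℤ),
        (∀ p ∈ S, p.1 < 0 ∧ 0 < p.2 ∧ ∀ b : Polynomial ℂ, IsBFunction
          (spa v (fun j => algebraMap k ℂ (c j)) + MvPolynomial.map (algebraMap F ℂ) h) b →
            b.eval ((p.1 : ℂ) / p.2) = 0) ∧
        (∀ (K : Type) [Field K] [Algebra k K] (W : Set (Pt K (Fin N)))
          (E : Set (AlgebraicClosure K)), Constr W → Good E →
          zetaG (spa v (fun j => algebraMap k K (c j)) +
            MvPolynomial.map ((algebraMap k K).comp (algebraMap F k)) h) W E ∈ ratRing K S) ∧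
        InRat (LuMu (spa v c + MvPolynomial.map (algebraMap F k) h)) S
          (zetaE (spa v c + MvPolynomial.map (algebraMap F k) h)) := by
  obtain ⟨g1, hg1, h1⟩ := gen_roots hBern hr v hv hv0 (MvPolynomial.map (algebraMap F ℂ) h)
    (supp_np v h hh) hB
  obtain ⟨g2, hg2, h2⟩ := gen_nonD hr v (we h) (we_np v h hh) (fun l => algebraMap F ℂ (wc h l))
  refine ⟨g1 * g2, mul_ne_zero hg1 hg2, fun k _ _ _ _ c hc => ?_⟩
  rw [map_mul] at hc
  have hb := h1 _ (left_ne_zero_of_mul hc)
  have hnd := h2 _ (right_ne_zero_of_mul hc)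
  have hnk : NonD (Fin.append v (we h)) (fun j => algebraMap k ℂ
      (Fin.append c (fun l => algebraMap F k (wc h l)) j)) := by
    rw [append_map]
    simp only [← IsScalarTower.algebraMap_apply F k ℂ]
    exact hnd
  have hray := pRAY v (we h) hr (we_np v h hh)
  have hkc : CharZero k := RingHom.charZero (algebraMap k ℂ)
  have hcand : ∀ a : Fin N → ℕ, IsRay (Fin.append v (we h)) a →
      0 < gord (Fin.append v (we h)) a → ∀ b : Polynomial ℂ, IsBFunction
          (spa v (fun j => algebraMap k ℂ (c j)) + MvPolynomial.map (algebraMap F ℂ) h) b →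
      b.eval (((-((∑ i, a i : ℕ) : ℤ) : ℤ) : ℂ) /
        ((gord (Fin.append v (we h)) a : ℤ) : ℂ)) = 0 := by
    intro a ha hg b hb'
    obtain ⟨hga, hra⟩ := hray a
    rw [hga] at hg ⊢
    have h3 := (hb b hb').2 a (hra ha) hg
    rw [← h3]
    congr 1
    push_cast
    ring
  have hm1 : ∀ b : Polynomial ℂ, IsBFunction
          (spa v (fun j => algebraMap k ℂ (c j)) + MvPolynomial.map (algebraMap F ℂ) h) b →
      b.eval (((-1 : ℤ) : ℂ) / ((1 : ℤ) : ℂ)) = 0 := by
    intro b hb'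
    have e : (((-1 : ℤ) : ℂ) / ((1 : ℤ) : ℂ)) = -1 := by
      push_cast
      ring
    rw [e]
    exact (hb b hb').1
  have hpos : ∀ a : Fin N → ℕ, a ≠ 0 → -((∑ i, a i : ℕ) : ℤ) < 0 := by
    intro a ha
    have h4 : 0 < ∑ i, a i := by
      by_contra hcon
      exact ha (funext fun i =>
        Finset.sum_eq_zero_iff.1 (Nat.eq_zero_of_not_pos hcon) i (Finset.mem_univ i))
    simp only [Left.neg_neg_iff]
    exact_mod_cast h4
  obtain ⟨S1, hS1, hz1⟩ := Mot.fin (Fin.append v (we h)) (show 0 < r + h.support.card by omega)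
  obtain ⟨S2, hS2, hz2⟩ := efin (Fin.append v (we h)) (show 0 < r + h.support.card by omega)
  refine ⟨S1 ∪ S2, fun p hp => ?_, fun K _ _ W E hW hE => ?_, ?_⟩
  · have hp' : p = (-1, 1) ∨ ∃ a : Fin N → ℕ, IsRay (Fin.append v (we h)) a ∧
        0 < gord (Fin.append v (we h)) a ∧
        p = (-((∑ i, a i : ℕ) : ℤ), (gord (Fin.append v (we h)) a : ℤ)) :=
      (Finset.mem_union.1 hp).elim (hS1 p) (hS2 p)
    rcases hp' with rfl | ⟨a, ha, hg, rfl⟩
    · exact ⟨by norm_num, by norm_num, fun b hb' => hm1 b hb'⟩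
    · exact ⟨hpos a ha.1, Int.natCast_pos.2 hg, fun b hb' => hcand a ha hg b hb'⟩
  · have hK : CharZero K := charZero_of_injective_algebraMap (algebraMap k K).injective
    rw [sp_eq]
    have h3 := hz1 K (Fin.append (fun j => algebraMap k K (c j))
      (fun l => (algebraMap k K).comp (algebraMap F k) (wc h l))) (nonG_of_nonD _ _ (by
        have h4 := nonD_ext (k := k) (L := AlgebraicClosure K) _ _ hnk
        have h5 : (fun j => algebraMap K (AlgebraicClosure K)
            (Fin.append (fun j => algebraMap k K (c j))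
              (fun l => (algebraMap k K).comp (algebraMap F k) (wc h l)) j)) =
            fun j => algebraMap k (AlgebraicClosure K)
              (Fin.append c (fun l => algebraMap F k (wc h l)) j) := by
          rw [append_map, append_map]
          congr 1
        rw [h5]
        exact h4)) W E hW hE
    refine Algebra.adjoin_mono (Set.union_subset_union_right _ ?_) h3
    rintro g ⟨p, hp, rfl⟩
    exact ⟨p, Finset.mem_coe.2 (Finset.mem_union_left _ (Finset.mem_coe.1 hp)), rfl⟩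
  · rw [sp_eq]
    have h3 := hz2 k (Fin.append c (fun l => algebraMap F k (wc h l))) (nonG_of_nonD _ _
      (nonD_ext (k := k) (L := AlgebraicClosure k) _ _ hnk))
    unfold InRat at h3 ⊢
    refine Algebra.adjoin_mono (Set.union_subset_union_right _ ?_) h3
    rintro g ⟨p, hp, rfl⟩
    exact ⟨p, Finset.mem_coe.2 (Finset.mem_union_right _ (Finset.mem_coe.1 hp)), rfl⟩

open MeasureTheory in
/-- **The p-adic strong form for generic coefficients.** -/
theorem gen_padic (hBern : Bernstein) (hr : 0 < r)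
    (v : Fin r → Fin N → ℕ) (hv : Function.Injective v) (hv0 : ∀ j, v j ≠ 0)
    (h : MvPolynomial (Fin N) ℚ) (hh : ∀ w ∈ h.support, Pool.Agent.W425.SV.NP v w)
    (hB : NoB1s v False) :
    ∃ g : MvPolynomial (Fin r) ℂ, g ≠ 0 ∧ ∀ c : Fin r → ℚ, eval (fun j => ((c j : ℚ) : ℂ)) g ≠ 0 →
      ∃ S : Finset ℕ, ∀ (p : ℕ) [Fact p.Prime], p ∉ S →
      ∀ [MeasurableSpace (Fin N → PadicInt p)] [BorelSpace (Fin N → PadicInt p)],
      ∀ F : ℂ → ℂ, MeromorphicOn F Set.univ →
        (∀ s : ℂ, 0 < s.re →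
          F s = ∫ x, ((‖MvPolynomial.eval₂ (algebraMap ℚ (Padic p))
                    (fun i => ((x i : PadicInt p) : Padic p)) (spa v c + h)‖ : ℝ) : ℂ) ^ s
                  ∂(MeasureTheory.Measure.addHaar : MeasureTheory.Measure (Fin N → PadicInt p))) →
        ∀ s₀ : ℂ, meromorphicOrderAt F s₀ < 0 → ∀ b : Polynomial ℂ,
          IsBFunction (MvPolynomial.map (algebraMap ℚ ℂ) (spa v c + h)) b →
          b.eval (s₀.re : ℂ) = 0 := by
  obtain ⟨g1, hg1, h1⟩ := gen_roots hBern hr v hv hv0 (MvPolynomial.map (algebraMap ℚ ℂ) h)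
    (supp_np v h hh) hB
  obtain ⟨g2, hg2, h2⟩ := gen_nonD hr v (we h) (we_np v h hh) (fun l => algebraMap ℚ ℂ (wc h l))
  refine ⟨g1 * g2, mul_ne_zero hg1 hg2, fun c hc => ?_⟩
  rw [map_mul] at hc
  have hb := h1 _ (left_ne_zero_of_mul hc)
  have hnd := h2 _ (right_ne_zero_of_mul hc)
  have hray := pRAY v (we h) hr (we_np v h hh)
  have hq : Pool.Agent.W425.PN.qpoly (Fin.append v (we h)) (Fin.append c (wc h)) =
      spa v c + h := by
    unfold Pool.Agent.W425.PN.qpoly
    rw [Fin.sum_univ_add]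
    simp only [Fin.append_left, Fin.append_right]
    congr 1
    have h3 := h_eq (RingHom.id ℚ) h
    rw [MvPolynomial.map_id] at h3
    exact h3.symm
  have hnq : NonD (Fin.append v (we h)) (fun j => ((Fin.append c (wc h) j : ℚ) : ℂ)) := by
    have h3 := append_map (fun q : ℚ => (q : ℂ)) c (wc h)
    rw [h3]
    exact hnd
  obtain ⟨S, hS⟩ := Pool.Agent.W425.PN.poles (Fin.append v (we h)) (Fin.append c (wc h))
    (by omega) hnq
  rw [hq] at hS
  refine ⟨S, fun p _ hp _ _ F hF hFI s₀ hs₀ b hbf => ?_⟩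
  rw [map_add, map_spa] at hbf
  obtain ⟨h3, h4⟩ := hb b hbf
  rcases hS p hp F hF hFI s₀ hs₀ with h | ⟨a, ha, hg, h⟩
  · rw [h]
    push_cast
    exact h3
  · obtain ⟨hga, hra⟩ := hray a
    rw [hga] at hg h
    have h5 := h4 a (hra ha) hg
    rw [h, ← h5]
    congr 1
    push_cast
    ring

end Pool.Agent.W425.GN
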